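import Pool.Agent.MP_776d16_ag.H34.Spec

/-
Basic operations on very free curves.
-/

namespace Pool.Agent.MP_776d16_ag.H34

open Polynomial

namespace BasicA

variable {K : Type} [CommRing K]

theorem refl_sum {ι : Type} (s : Finset ι) (n : ℕ) (f : ι → K[X]) :
    reflect n (∑ i ∈ s, f i) = ∑ i ∈ s, reflect n (f i) := by
  ext j
  simp [finsetSum_coeff]

theorem refl_pow {x : K[X]} {n : ℕ} (hx : x.natDegree ≤ n) (m : ℕ) :
    reflect (m * n) (x ^ m) = reflect n x ^ m := by
  induction m with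
  | zero => simp
  | succ m ih => rw [Nat.succ_mul, pow_succ, pow_succ,
      reflect_mul _ _ (natDegree_pow_le_of_le m hx) hx, ih]

theorem refl_deg {f : K[X]} {n : ℕ} (hf : f.degree < (n : WithBot ℕ)) :
    (reflect (n - 1) f).degree < (n : WithBot ℕ) := by
  rw [degree_lt_iff_coeff_zero] at hf ⊢
  intro m hm
  rw [coeff_reflect]
  refine hf _ ?_
  rcases (by omega : n - 1 < m ∨ n = 0) with h | rfl
  · rwa [revAt_eq_self_of_lt h]
  · exact Nat.zero_le _

theorem refl_term {x h : K[X]} {u a : ℕ} (ha : 0 < a) (hx : x.natDegree ≤ u)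
    (hh : h.degree < ((u - 1 : ℕ) : WithBot ℕ)) :
    reflect (a * u - 1 - 1) ((a : K[X]) * x ^ (a - 1) * h) =
      (a : K[X]) * reflect u x ^ (a - 1) * reflect (u - 1 - 1) h := by
  rcases eq_or_ne h 0 with rfl | h0
  · simp
  have h1 := (natDegree_lt_iff_degree_lt h0).2 hh
  obtain ⟨b, rfl⟩ : ∃ b, a = b + 1 := ⟨a - 1, by omega⟩
  have e : (b + 1) * u - 1 - 1 = b * u + (u - 1 - 1) := by
    rw [Nat.succ_mul]
    omega
  rw [e, ← C_eq_natCast, mul_assoc, reflect_C_mul, Nat.add_sub_cancel,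
    reflect_mul _ _ (natDegree_pow_le_of_le b hx) (by omega), refl_pow hx, mul_assoc]

theorem aew {ι : Type} [Fintype ι] {a w : ι → ℕ} {d : ℕ} (hw : Wt a w d) (e : ℕ) (i : ι) :
    e * d = a i * (e * w i) := by
  rw [← hw.mul i]
  ring

end BasicA

open BasicA

theorem crvMap : CrvMap := by
  intro K K' ι _ _ _ a w d e x r π ρ φ h
  refine ⟨h.pos, fun i => natDegree_map_le.trans (h.deg i), fun i => by rw [coeff_map, h.start],
    fun i => by rw [coeff_map, h.stop], by simp [← h.eqn, Polynomial.map_sum], fun f hf => ?_⟩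
  choose! H hH using fun (j : ℕ) (hj : (j : WithBot ℕ) < ((e * d - 1 : ℕ) : WithBot ℕ)) =>
    h.vf (X ^ j) ((degree_X_pow_le j).trans_lt hj)
  have hj : ∀ j ∈ f.support, (j : WithBot ℕ) < ((e * d - 1 : ℕ) : WithBot ℕ) := fun j hj =>
    (le_degree_of_mem_supp j hj).trans_lt hf
  refine ⟨fun i => ∑ j ∈ f.support, C (f.coeff j) * (H j i).map φ, fun i => ?_, ?_⟩
  · refine mem_degreeLT.1 (Submodule.sum_mem _ fun j hj' => ?_)
    rw [← smul_eq_C_mul]
    exact Submodule.smul_mem _ _ (mem_degreeLT.2 (degree_map_le.trans_lt ((hH j (hj j hj')).1 i)))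
  · simp only [Finset.mul_sum]
    rw [Finset.sum_comm]
    refine (as_sum_support_C_mul_X_pow f).trans (Finset.sum_congr rfl fun j hj' => ?_)
    have h1 := congrArg (Polynomial.map φ) (hH j (hj j hj')).2
    simp only [Polynomial.map_pow, map_X, Polynomial.map_sum, Polynomial.map_mul,
      Polynomial.map_natCast] at h1
    rw [h1, Finset.mul_sum]
    exact Finset.sum_congr rfl fun i _ => by ring

theorem crvScale : CrvScale := by
  intro K ι _ _ a w d e hw x r π ρ c hc h
  refine ⟨h.pos, fun i => (natDegree_C_mul_le _ _).trans (h.deg i),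
    fun i => by rw [coeff_C_mul, h.start], fun i => by rw [coeff_C_mul, h.stop], ?_,
    fun f hf => ?_⟩
  · rw [← h.eqn, Finset.mul_sum]
    exact Finset.sum_congr rfl fun i _ => by
      rw [mul_pow, ← C_pow, ← pow_mul, mul_comm (w i), hw.mul]
  obtain ⟨H, h1, rfl⟩ := h.vf f hf
  refine ⟨fun i => C ((c ^ w i) ^ (a i - 1))⁻¹ * H i, fun i => ?_,
    Finset.sum_congr rfl fun i _ => ?_⟩
  · beta_reduce
    rw [← smul_eq_C_mul]
    exact (degree_smul_le _ _).trans_lt (h1 i)
  · have e1 : (C ((c ^ w i) ^ (a i - 1)) * C ((c ^ w i) ^ (a i - 1))⁻¹ : K[X]) = 1 := by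
      rw [← C_mul, mul_inv_cancel₀ (pow_ne_zero _ (pow_ne_zero _ hc)), C_1]
    rw [mul_pow, ← C_pow]
    linear_combination (-((a i : K[X]) * x i ^ (a i - 1) * H i)) * e1

theorem crvReflect : CrvReflect := by
  intro K ι _ _ a w d e hw x r π ρ h
  refine ⟨h.pos, fun i => natDegree_reflect_le.trans (max_le le_rfl (h.deg i)),
    fun i => by rw [coeff_reflect, revAt_zero, h.stop],
    fun i => by rw [coeff_reflect, revAt_le le_rfl, Nat.sub_self, h.start], ?_, fun f hf => ?_⟩
  · rw [← h.eqn, refl_sum]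
    exact Finset.sum_congr rfl fun i _ => by rw [aew hw e i, refl_pow (h.deg i)]
  obtain ⟨H, h1, h2⟩ := h.vf _ (refl_deg hf)
  refine ⟨fun i => reflect (e * w i - 1 - 1) (H i), fun i => refl_deg (h1 i), ?_⟩
  rw [← reflect_reflect (N := e * d - 1 - 1) (p := f), h2, refl_sum]
  exact Finset.sum_congr rfl fun i _ => by
    rw [aew hw e i, refl_term (by have := hw.two i; omega) (h.deg i) (h1 i)]

theorem crvEnds : CrvEnds := by
  intro K ι _ _ a w d e hw x r π ρ h
  refine ⟨?_, ?_, ?_⟩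
  · rw [← h.eqn, finsetSum_coeff]
    exact Finset.sum_congr rfl fun i _ => by
      rw [← h.start, coeff_zero_eq_eval_zero, coeff_zero_eq_eval_zero, eval_pow]
  · rw [← h.eqn, finsetSum_coeff]
    exact Finset.sum_congr rfl fun i _ => by
      rw [aew hw e i, coeff_pow_of_natDegree_le (h.deg i), h.stop]
  · obtain ⟨i⟩ : Nonempty ι := Fintype.card_pos_iff.1 (by have := hw.card; omega)
    have h2 : 2 ≤ d := by
      have h1 := hw.mul i
      have h0 : 0 < w i := Nat.pos_of_mul_pos_left (h1 ▸ hw.pos)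
      exact h1 ▸ (hw.two i).trans (Nat.le_mul_of_pos_right _ h0)
    have h3 : 0 < e * d - 1 := by
      have := Nat.le_mul_of_pos_left d h.pos
      omega
    obtain ⟨H, -, h4⟩ := h.vf 1 (degree_one_le.trans_lt (by exact_mod_cast h3))
    refine ⟨fun i => (H i).eval 0, ?_⟩
    have h5 := congrArg (eval 0) h4
    simp only [eval_one, eval_finsetSum, eval_mul, eval_pow, eval_natCast,
      ← coeff_zero_eq_eval_zero (x _), h.start] at h5
    exact h5.symm

end Pool.Agent.MP_776d16_ag.H34
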