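import Mathlib

/-
Definitions for log rational connectedness of pairs inside a complex weighted projective space.
-/

namespace Pool.Agent.MP_776d16_ag.H34

open MvPolynomial

/-- Two nonzero vectors are equivalent if they lie in one orbit of the action
`c • v = (c ^ W i * v i)_i` of the multiplicative group. -/
def wSetoid {σ : Type} (W : σ → ℕ) : Setoid {v : σ → ℂ // v ≠ 0} where
  r u v := ∃ c : ℂ, c ≠ 0 ∧ ∀ i, v.1 i = c ^ W i * u.1 i
  iseqv :=
    { refl := fun u => ⟨1, one_ne_zero, fun i => by simp⟩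
      symm := by
        rintro u v ⟨c, hc, h⟩
        refine ⟨c⁻¹, inv_ne_zero hc, fun i => ?_⟩
        rw [h i, ← mul_assoc, ← mul_pow, inv_mul_cancel₀ hc, one_pow, one_mul]
      trans := by
        rintro u v x ⟨c, hc, h⟩ ⟨c', hc', h'⟩
        refine ⟨c' * c, mul_ne_zero hc' hc, fun i => ?_⟩
        rw [h' i, h i, mul_pow, mul_assoc] }

/-- The points of the complex weighted projective space with weights `W`. -/
def WP {σ : Type} (W : σ → ℕ) : Type := Quotient (wSetoid W)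

/-- The point of weighted projective space with homogeneous coordinates `v`. -/
def WP.mk {σ : Type} (W : σ → ℕ) (v : σ → ℂ) (hv : v ≠ 0) : WP W :=
  Quotient.mk (wSetoid W) ⟨v, hv⟩

/-- A rational curve in weighted projective space: the set of points `[F i t]_i`, `t ≠ 0` in
`ℂ^2`, where the `F i` are binary forms of degrees `e * W i` with no common zero `t ≠ 0`, the
image having at least two points. -/
def IsRationalCurve {σ : Type} (W : σ → ℕ) (Γ : Set (WP W)) : Prop :=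
  ∃ (e : ℕ) (F : σ → MvPolynomial (Fin 2) ℂ), (∀ i, (F i).IsHomogeneous (e * W i)) ∧
    ∃ h : ∀ t : Fin 2 → ℂ, t ≠ 0 → (fun i => eval t (F i)) ≠ 0,
      Γ = {p | ∃ (t : Fin 2 → ℂ) (ht : t ≠ 0),
        p = WP.mk W (fun i => eval t (F i)) (h t ht)} ∧ Γ.Nontrivial

/-- Log rational connectedness of `(Y, D)`, for `D ⊆ Y` in weighted projective space. -/
def LogRC {σ : Type} (W : σ → ℕ) (Y D : Set (WP W)) : Prop :=
  ∀ p ∈ Y, ∀ q ∈ Y \ D, ∃ Γ : Set (WP W), IsRationalCurve W Γ ∧ Γ ⊆ Y ∧ p ∈ Γ ∧ q ∈ Γ ∧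
    ¬ Γ ⊆ D ∧ ∃ r, Γ ∩ D = {r}

/-- Weights: `w0` for the coordinate `t` (index `none`) and `w i` for `x i` (index `some i`). -/
def wts {m : ℕ} (w0 : ℕ) (w : Fin m → ℕ) : Option (Fin m) → ℕ := fun o => o.elim w0 w

/-- The hypersurface `∑ x i ^ a i = t ^ b`. -/
def hyp {m : ℕ} (W : Option (Fin m) → ℕ) (a : Fin m → ℕ) (b : ℕ) : Set (WP W) :=
  {p | ∃ (v : Option (Fin m) → ℂ) (hv : v ≠ 0), p = WP.mk W v hv ∧
    ∑ i, v (some i) ^ a i = v none ^ b}

/-- The boundary divisor `t = 0` of the hypersurface `∑ x i ^ a i = t ^ b`. -/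
def bdry {m : ℕ} (W : Option (Fin m) → ℕ) (a : Fin m → ℕ) : Set (WP W) :=
  {p | ∃ (v : Option (Fin m) → ℂ) (hv : v ≠ 0), p = WP.mk W v hv ∧
    ∑ i, v (some i) ^ a i = 0 ∧ v none = 0}

end Pool.Agent.MP_776d16_ag.H34
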