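import Pool.Agent.MP_776d16_ag.H34.Spec

namespace Pool.Agent.MP_776d16_ag.H34

open Polynomial

namespace EndRingA

section
variable (S : Type) [CommRing S] {ι : Type} [Fintype ι] [DecidableEq ι] (a : ι → ℕ) (i0 : ι)

/-- the sum of the other powers -/
noncomputable def gs : MvPolynomial {i // i ≠ i0} S := ∑ j : {i // i ≠ i0}, MvPolynomial.X j ^ a j

/-- the equation as a monic polynomial in one variable -/
noncomputable def GG : (MvPolynomial {i // i ≠ i0} S)[X] := X ^ a i0 + C (gs S a i0)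

/-- the coordinates -/
noncomputable def pp (i : ι) : AdjoinRoot (GG S a i0) :=
  if h : i = i0 then AdjoinRoot.root _ else AdjoinRoot.of _ (MvPolynomial.X ⟨i, h⟩)

theorem sum_split {T : Type} [CommRing T] (f : ι → T) :
    ∑ i, f i = f i0 + ∑ j : {i // i ≠ i0}, f j := by
  rw [← Finset.add_sum_erase _ _ (Finset.mem_univ i0)]
  congr 1
  exact Finset.sum_subtype _ (by simp) _

theorem monic (h : a i0 ≠ 0) : (GG S a i0).Monic := monic_X_pow_add_C _ h

theorem pp_sum : ∑ i, pp S a i0 i ^ a i = 0 := by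
  have h := AdjoinRoot.eval₂_root (GG S a i0)
  rw [sum_split i0]
  conv at h => enter [1, 3]; unfold GG
  rw [eval₂_add, eval₂_X_pow, eval₂_C, gs, map_sum] at h
  rw [← h]
  congr 1
  · simp [pp]
  · exact Finset.sum_congr rfl fun j _ => by simp [pp, j.2]

theorem univ (k0 : Type) [CommRing k0] [Algebra S k0] (π0 : ι → k0) (h : ∑ i, π0 i ^ a i = 0) :
    ∃ φ : AdjoinRoot (GG S a i0) →ₐ[S] k0, ∀ i, φ (pp S a i0 i) = π0 i := by
  refine ⟨AdjoinRoot.liftAlgHom _ (MvPolynomial.aeval fun j => π0 j) (π0 i0) ?_, fun i => ?_⟩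
  · rw [sum_split i0] at h
    rw [GG, eval₂_add, eval₂_X_pow, eval₂_C, ← h]
    simp [gs]
  · unfold pp
    split_ifs with hi
    · simp [hi]
    · simp

theorem flat (h : a i0 ≠ 0) : Module.Flat S (AdjoinRoot (GG S a i0)) := by
  have := (monic S a i0 h).free_adjoinRoot
  exact Module.Flat.trans S (MvPolynomial {i // i ≠ i0} S) _

end

theorem sq_der {σ : Type} (y : σ → ℂ) (j : σ) {f : MvPolynomial σ ℂ}
    (hf : f ∈ RingHom.ker (MvPolynomial.eval y) ^ 2) :
    MvPolynomial.eval y (MvPolynomial.pderiv j f) = 0 := by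
  rw [pow_two] at hf
  refine Submodule.mul_induction_on hf (fun u hu v hv => ?_) (fun u v hu hv => ?_)
  · rw [RingHom.mem_ker] at hu hv
    simp [Derivation.leibniz, hu, hv]
  · simp [hu, hv]

theorem irred {ι : Type} [Fintype ι] [DecidableEq ι] (a : ι → ℕ) (ha : ∀ i, 2 ≤ a i)
    (i0 : ι) (j1 j2 : {i // i ≠ i0}) (h12 : j1 ≠ j2) : Irreducible (GG ℂ a i0) := by
  have h0 : ∀ i, a i ≠ 0 := fun i => by have := ha i; omega
  obtain ⟨ζ, hζ⟩ := IsAlgClosed.exists_pow_nat_eq (-1 : ℂ) (Nat.pos_of_ne_zero (h0 j2))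
  set y : {i // i ≠ i0} → ℂ := fun j => if j = j1 then 1 else if j = j2 then ζ else 0 with hy
  have hm := monic ℂ a i0 (h0 i0)
  have hdeg : (GG ℂ a i0).degree = a i0 := degree_X_pow_add_C (Nat.pos_of_ne_zero (h0 i0)) _
  have hg : MvPolynomial.eval y (gs ℂ a i0) = 0 := by
    rw [gs, map_sum, Finset.sum_eq_add j1 j2 h12]
    · simp [hy, h12.symm, hζ]
    · intro c _ hc
      simp [hy, hc.1, hc.2, h0]
    · simp
    · simp
  refine irreducible_of_eisenstein_criterion (P := RingHom.ker (MvPolynomial.eval y))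
    (RingHom.ker_isPrime _) ?_ (fun n hn => ?_) ?_ ?_ hm.isPrimitive
  · rw [hm.leadingCoeff, RingHom.mem_ker, map_one]
    exact one_ne_zero
  · rw [hdeg] at hn
    have hn' : n ≠ a i0 := ne_of_lt (by exact_mod_cast hn)
    rw [GG, coeff_add, coeff_X_pow, if_neg hn', zero_add, coeff_C]
    split_ifs
    · exact hg
    · exact zero_mem _
  · rw [hdeg]
    exact_mod_cast Nat.pos_of_ne_zero (h0 i0)
  · intro h
    have h1 := sq_der y j1 h
    rw [GG, coeff_add, coeff_X_pow, if_neg (h0 i0).symm, zero_add, coeff_C_zero, gs, map_sum,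
      map_sum, Finset.sum_eq_single j1] at h1
    · simp [hy, h0] at h1
    · intro c _ hc
      simp [MvPolynomial.pderiv_X, hc]
    · simp

end EndRingA

open EndRingA

theorem endFlat : EndFlat := by
  intro S ι _ _ a w d hw
  classical
  have : Nonempty ι := Fintype.card_pos_iff.1 (by have := hw.card; omega)
  obtain ⟨i0⟩ := this
  have h0 : a i0 ≠ 0 := by have := hw.two i0; omega
  exact ⟨AdjoinRoot (GG S a i0), inferInstance, inferInstance, pp S a i0, flat S a i0 h0,
    inferInstance, pp_sum S a i0, fun k0 _ _ π0 h => univ S a i0 k0 π0 h⟩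

theorem endDom : EndDom := by
  intro ι _ a w d hw
  classical
  obtain ⟨i0, i1, i2, h01, h02, h12⟩ := Fintype.two_lt_card_iff.1 (by have := hw.card; omega :
    2 < Fintype.card ι)
  have hi := irred a hw.two i0 ⟨i1, h01.symm⟩ ⟨i2, h02.symm⟩ (fun h => h12 (congrArg Subtype.val h))
  exact ⟨AdjoinRoot (GG ℂ a i0), inferInstance, inferInstance, pp ℂ a i0,
    AdjoinRoot.isDomain_of_prime hi.prime, inferInstance, pp_sum ℂ a i0,
    fun π0 h => univ ℂ a i0 ℂ π0 h⟩

end Pool.Agent.MP_776d16_ag.H34
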