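import Pool.Agent.MP_776d16_ag.H34.Spec

/-
Row Final: from the joining curves to log rational connectedness.
-/

namespace Pool.Agent.MP_776d16_ag.H34

open Polynomial

namespace FinalA

lemma eval_top (p : ℂ[X]) (n : ℕ) (t : Fin 2 → ℂ) (ht : t 1 = 0) :
    MvPolynomial.eval t (p.homogenize n) = p.coeff n * t 0 ^ n := by
  have key : ∀ k l : ℕ, ∀ c : ℂ, MvPolynomial.eval t
      (MvPolynomial.monomial (fun₀ | (0 : Fin 2) => k | 1 => l) c) = c * (t 0 ^ k * t 1 ^ l) := by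
    intro k l c
    rw [MvPolynomial.eval_monomial, Finsupp.prod_fintype _ _ (by simp)]
    simp
  rw [homogenize, map_sum, Finset.sum_eq_single (n, 0)]
  · rw [key]; simp
  · rintro ⟨k, l⟩ h h'
    have h1 : k + l = n := by simpa using h
    have h2 : l ≠ 0 := by rintro rfl; exact h' (by simpa using h1)
    rw [key, ht, zero_pow h2]; simp
  · simp

variable {m : ℕ} {a w : Fin m → ℕ} {b w0 d : ℕ}

/-- the vector with last coordinate `κ` -/
def vec (κ : ℂ) (r : Fin m → ℂ) : Option (Fin m) → ℂ := fun o => o.elim κ r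

lemma mk_eq {σ : Type} {W : σ → ℕ} {u v : σ → ℂ} (hu : u ≠ 0) (hv : v ≠ 0) {c : ℂ} (hc : c ≠ 0)
    (h : ∀ i, v i = c ^ W i * u i) : WP.mk W u hu = WP.mk W v hv :=
  Quotient.sound ⟨c, hc, h⟩

lemma none_of_bdry {W : Option (Fin m) → ℕ} {v : Option (Fin m) → ℂ} {hv : v ≠ 0}
    (h : WP.mk W v hv ∈ bdry W a) : v none = 0 := by
  obtain ⟨u, hu, e, -, h0⟩ := h
  obtain ⟨c, -, hc⟩ := Quotient.exact e.symm
  have := hc none
  simpa [h0] using this

lemma normal (h : Wt a w d) (hb : b * w0 = d) {p : WP (wts w0 w)} (hp : p ∈ hyp (wts w0 w) a b) :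
    ∃ (κ : ℂ) (r : Fin m → ℂ) (hv : vec κ r ≠ 0), (κ = 0 ∨ κ = 1) ∧ r ≠ 0 ∧
      p = WP.mk _ (vec κ r) hv ∧ ∑ i, r i ^ a i = κ := by
  have hd := h.pos
  have hb0 : b ≠ 0 := by rintro rfl; omega
  have hw0 : 0 < w0 := Nat.pos_of_ne_zero (by rintro rfl; omega)
  obtain ⟨v, hv, rfl, hs⟩ := hp
  by_cases h0 : v none = 0
  · have e : vec 0 (fun i => v (some i)) = v := funext fun o => by cases o <;> simp [vec, h0]
    refine ⟨0, fun i => v (some i), by rw [e]; exact hv, Or.inl rfl, fun h1 => hv ?_, ?_, ?_⟩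
    · funext o
      cases o with
      | none => exact h0
      | some i => exact congrFun h1 i
    · exact mk_eq _ _ one_ne_zero fun o => by rw [e]; simp
    · rw [hs, h0, zero_pow hb0]
  · obtain ⟨c, hc⟩ := IsAlgClosed.exists_pow_nat_eq (v none)⁻¹ hw0
    have hc0 : c ≠ 0 := by
      rintro rfl
      rw [zero_pow hw0.ne'] at hc
      exact inv_ne_zero h0 hc.symm
    have hsum : ∑ i, (c ^ w i * v (some i)) ^ a i = 1 := by
      have : ∀ i, (c ^ w i * v (some i)) ^ a i = c ^ d * v (some i) ^ a i := fun i => by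
        rw [mul_pow, ← pow_mul, mul_comm (w i), h.mul i]
      simp only [this]
      rw [← Finset.mul_sum, hs, ← hb, mul_comm b, pow_mul, ← mul_pow, hc, inv_mul_cancel₀ h0,
        one_pow]
    refine ⟨1, fun i => c ^ w i * v (some i), fun h1 => one_ne_zero (congrFun h1 none), Or.inr rfl,
      fun h1 => ?_, mk_eq _ _ hc0 fun o => ?_, hsum⟩
    · rw [Finset.sum_eq_zero fun i _ => by
        rw [show c ^ w i * v (some i) = 0 from congrFun h1 i,
          zero_pow (by have := h.two i; omega)]] at hsum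
      exact zero_ne_one hsum
    · cases o with
      | none => exact (by rw [hc, inv_mul_cancel₀ h0] : (1 : ℂ) = c ^ w0 * v none)
      | some i => rfl

end FinalA

open FinalA

theorem final : Join → Final := by
  intro hJ m a w b w0 d h hb p hp q hq
  have hd := h.pos
  have hw0 : 0 < w0 := Nat.pos_of_ne_zero (by rintro rfl; omega)
  obtain ⟨κ, r2, hv2, hκ, hr2, rfl, hs2⟩ := normal h hb hp
  obtain ⟨κ1, r1, hv1, hκ1, -, rfl, hs1⟩ := normal h hb hq.1
  obtain rfl : κ1 = 1 := hκ1.resolve_left fun e => hq.2 ⟨_, hv1, rfl, hs1.trans e, e⟩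
  obtain ⟨e, μ, P, he, hμ, hdeg, h0, htop, hsum, i0, hi0⟩ :=
    hJ (Fin m) a w d h r1 r2 κ hκ hs1 hs2 hr2
  have hew : e * w0 ≠ 0 := (Nat.mul_pos he hw0).ne'
  let F : Option (Fin m) → MvPolynomial (Fin 2) ℂ := fun o => o.elim
    ((MvPolynomial.C κ * MvPolynomial.X 0 + MvPolynomial.C μ * MvPolynomial.X 1) ^ (e * w0))
    fun i => (P i).homogenize (e * w i)
  have g1 : ∀ t : Fin 2 → ℂ, MvPolynomial.eval t (F none) = (κ * t 0 + μ * t 1) ^ (e * w0) :=
    fun t => by simp [F]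
  have g2 : ∀ t : Fin 2 → ℂ, t 1 ≠ 0 → ∀ i,
      MvPolynomial.eval t (F (some i)) = (P i).eval (t 0 / t 1) * t 1 ^ (e * w i) :=
    fun t ht i => eval_homogenize (hdeg i) t ht
  have g3 : ∀ t : Fin 2 → ℂ, t 1 = 0 → ∀ i,
      MvPolynomial.eval t (F (some i)) = r2 i * t 0 ^ (e * w i) :=
    fun t ht i => by rw [← htop i]; exact eval_top _ _ t ht
  have t0 : ∀ t : Fin 2 → ℂ, t ≠ 0 → t 1 = 0 → t 0 ≠ 0 := fun t ht h1 h0 =>
    ht (funext fun j => by fin_cases j <;> assumption)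
  -- the zeros of the last coordinate
  have z0 : ∀ t : Fin 2 → ℂ, t ≠ 0 → MvPolynomial.eval t (F none) = 0 →
      (κ = 0 ∧ t 1 = 0) ∨ (κ = 1 ∧ t 1 ≠ 0 ∧ t 0 / t 1 = -μ) := by
    intro t ht hz
    rw [g1, pow_eq_zero_iff hew] at hz
    rcases hκ with rfl | rfl
    · exact Or.inl ⟨rfl, by simpa [hμ] using hz⟩
    · have h1 : t 1 ≠ 0 := fun h1 => t0 t ht h1 (by simpa [h1] using hz)
      exact Or.inr ⟨rfl, h1, by rw [div_eq_iff h1]; linear_combination hz⟩
  have nz : ∀ t : Fin 2 → ℂ, t ≠ 0 → (fun o => MvPolynomial.eval t (F o)) ≠ 0 := by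
    intro t ht hz
    rcases z0 t ht (congrFun hz none) with ⟨-, h1⟩ | ⟨-, h1, h2⟩
    · refine hr2 (funext fun i => ?_)
      have : _ = (0 : ℂ) := congrFun hz (some i)
      rw [g3 t h1] at this
      exact (mul_eq_zero.1 this).resolve_right (pow_ne_zero _ (t0 t ht h1))
    · have : _ = (0 : ℂ) := congrFun hz (some i0)
      rw [g2 t h1, h2] at this
      exact mul_ne_zero hi0 (pow_ne_zero _ h1) this
  have eqn : ∀ t : Fin 2 → ℂ, ∑ i, MvPolynomial.eval t (F (some i)) ^ a i =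
      MvPolynomial.eval t (F none) ^ b := by
    intro t
    have hp : ∀ (i) (x y : ℂ), (x * y ^ (e * w i)) ^ a i = x ^ a i * y ^ (e * d) := fun i x y => by
      rw [mul_pow, ← pow_mul, mul_assoc, mul_comm (w i), h.mul i]
    rw [g1, ← pow_mul, mul_assoc, mul_comm w0, hb]
    by_cases h1 : t 1 = 0
    · simp only [g3 t h1, hp]
      rw [← Finset.sum_mul, hs2, h1, mul_zero, add_zero, mul_pow]
      rcases hκ with rfl | rfl
      · rw [zero_pow (Nat.mul_pos he hd).ne']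
      · rw [one_pow]
    · simp only [g2 t h1, hp]
      have := congrArg (eval (t 0 / t 1)) hsum
      simp only [eval_finsetSum, eval_pow, eval_add, eval_mul, eval_C, eval_X] at this
      rw [← Finset.sum_mul, this, ← mul_pow]
      congr 1
      field_simp
  have n10 : (![1, 0] : Fin 2 → ℂ) ≠ 0 := fun h => one_ne_zero (congrFun h 0)
  have n01 : ∀ s : ℂ, (![s, 1] : Fin 2 → ℂ) ≠ 0 := fun s h => one_ne_zero (congrFun h 1)
  let Γ : Set (WP (wts w0 w)) := {p | ∃ (t : Fin 2 → ℂ) (ht : t ≠ 0),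
    p = WP.mk _ (fun o => MvPolynomial.eval t (F o)) (nz t ht)}
  have hqΓ : WP.mk _ (vec 1 r1) hv1 ∈ Γ := by
    refine ⟨![0, 1], n01 0, mk_eq _ _ (pow_ne_zero e hμ) fun o => ?_⟩
    cases o with
    | none => rw [g1, ← pow_mul]; simp [vec, wts]
    | some i =>
      rw [g2 _ (by simp), ← pow_mul]
      simpa [vec, wts, ← coeff_zero_eq_eval_zero] using h0 i
  have hpΓ : WP.mk _ (vec κ r2) hv2 ∈ Γ := by
    refine ⟨![1, 0], n10, mk_eq _ _ one_ne_zero fun o => ?_⟩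
    cases o with
    | none => rw [g1]; rcases hκ with rfl | rfl <;> simp [vec, hew]
    | some i => rw [g3 _ (by simp)]; simp [vec]
  have hb0 : b ≠ 0 := by rintro rfl; omega
  have inD : ∀ (t : Fin 2 → ℂ) (ht : t ≠ 0), MvPolynomial.eval t (F none) = 0 →
      WP.mk (wts w0 w) (fun o => MvPolynomial.eval t (F o)) (nz t ht) ∈ bdry (wts w0 w) a :=
    fun t ht hz => ⟨_, nz t ht, rfl, by rw [eqn, hz, zero_pow hb0], hz⟩
  have hsing : ∃ r, Γ ∩ bdry (wts w0 w) a = {r} := by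
    rcases hκ with rfl | rfl
    · refine ⟨_, Set.eq_singleton_iff_unique_mem.2
        ⟨⟨⟨_, n10, rfl⟩, inD _ n10 (by rw [g1]; simp [hew])⟩, ?_⟩⟩
      rintro _ ⟨⟨t, ht, rfl⟩, hD⟩
      have hz : MvPolynomial.eval t (F none) = 0 := none_of_bdry hD
      have h1 : t 1 = 0 := ((z0 t ht hz).resolve_right fun h => zero_ne_one h.1).2
      refine (mk_eq _ _ (pow_ne_zero e (t0 t ht h1)) fun o => ?_).symm
      cases o with
      | none => rw [hz, g1]; simp [hew]
      | some i => rw [g3 t h1, g3 _ (by simp), ← pow_mul]; simp [wts, mul_comm]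
    · refine ⟨_, Set.eq_singleton_iff_unique_mem.2
        ⟨⟨⟨_, n01 (-μ), rfl⟩, inD _ (n01 _) (by rw [g1]; simp [hew])⟩, ?_⟩⟩
      rintro _ ⟨⟨t, ht, rfl⟩, hD⟩
      have hz : MvPolynomial.eval t (F none) = 0 := none_of_bdry hD
      obtain ⟨-, h1, h2⟩ := (z0 t ht hz).resolve_left fun h => one_ne_zero h.1
      refine (mk_eq _ _ (pow_ne_zero e h1) fun o => ?_).symm
      cases o with
      | none => rw [hz, g1]; simp [hew]
      | some i => rw [g2 t h1, g2 _ (by simp), h2, ← pow_mul]; simp [wts, mul_comm]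
  refine ⟨Γ, ⟨e, F, fun o => ?_, nz, rfl, ?_⟩, ?_, hpΓ, hqΓ, fun hs => hq.2 (hs hqΓ), hsing⟩
  · cases o with
    | none =>
      have := (((MvPolynomial.isHomogeneous_X ℂ (0 : Fin 2)).C_mul κ).add
        ((MvPolynomial.isHomogeneous_X ℂ (1 : Fin 2)).C_mul μ)).pow (e * w0)
      rwa [one_mul] at this
    | some i => exact isHomogeneous_homogenize _
  · obtain ⟨r, hr⟩ := hsing
    have : r ∈ Γ ∩ bdry (wts w0 w) a := hr ▸ Set.mem_singleton r
    exact ⟨_, hqΓ, r, this.1, fun e => hq.2 (e ▸ this.2)⟩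
  · rintro _ ⟨t, ht, rfl⟩
    exact ⟨_, nz t ht, rfl, eqn t⟩

end Pool.Agent.MP_776d16_ag.H34
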