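import Pool.Agent.MP_776d16_ag.H34.Spec

/-! Row Glue: smoothing a chain of two very free curves. -/

set_option linter.unusedSectionVars false

namespace Pool.Agent.MP_776d16_ag.H34

open Polynomial Finset

namespace GlueA

section
variable {B : Type} [CommRing B]

/-- first sheet -/
noncomputable def PP (n n' : ℕ) (ε : B) (c : ℕ → B) : B[X] :=
  ∑ j ∈ range (n + n' + 1), monomial j (ε ^ (n - j) * c j)

/-- second sheet -/
noncomputable def QQ (n n' : ℕ) (ε : B) (c : ℕ → B) : B[X] :=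
  ∑ j ∈ range (n + n' + 1), monomial (n + n' - j) (ε ^ (j - n) * c j)

/-- a finite family extended by its two ends -/
def ext {m : ℕ} (r1 r2 : B) (x : Fin m → B) (j : ℕ) : B :=
  if j = 0 then r1 else if h : j - 1 < m then x ⟨j - 1, h⟩ else r2

/-- the coefficients of two polynomials glued at the constant terms -/
def sp (n : ℕ) (p q : B[X]) (j : ℕ) : B := if j ≤ n then q.coeff (n - j) else p.coeff (j - n)

theorem ext_zero {m : ℕ} (r1 r2 : B) (x : Fin m → B) : ext r1 r2 x 0 = r1 := by simp [ext]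

theorem ext_top {m : ℕ} (r1 r2 : B) (x : Fin m → B) : ext r1 r2 x (m + 1) = r2 := by simp [ext]

theorem ext_succ {m : ℕ} (r1 r2 : B) (x : Fin m → B) (l : Fin m) : ext r1 r2 x (l + 1) = x l := by
  simp [ext]

theorem sum_ext {M : Type} [AddCommMonoid M] {m : ℕ} (r1 r2 : B) (x : Fin m → B)
    (f : ℕ → B → M) : ∑ j ∈ range (m + 1 + 1), f j (ext r1 r2 x j)
      = f 0 r1 + (∑ l : Fin m, f (l + 1) (x l)) + f (m + 1) r2 := by
  rw [sum_range_succ, sum_range_succ', ext_zero, ext_top, add_comm _ (f 0 r1),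
    ← Fin.sum_univ_eq_sum_range (fun j => f (j + 1) (ext r1 r2 x (j + 1)))]
  simp only [ext_succ]

theorem ext_eq {m : ℕ} (c : ℕ → B) {j : ℕ} (hj : j ≤ m + 1) :
    ext (c 0) (c (m + 1)) (fun l : Fin m => c (l + 1)) j = c j := by
  rcases j with _ | j
  · exact ext_zero _ _ _
  · rcases Nat.lt_or_ge j m with h | h
    · exact ext_succ _ _ _ ⟨j, h⟩
    · obtain rfl : j = m := by omega
      exact ext_top _ _ _

theorem PP_coeff (n n' : ℕ) (ε : B) (c : ℕ → B) (j : ℕ) :
    (PP n n' ε c).coeff j = if j ≤ n + n' then ε ^ (n - j) * c j else 0 := by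
  simp only [PP, finsetSum_coeff, coeff_monomial, sum_ite_eq', mem_range, Nat.lt_succ_iff]

theorem QQ_coeff (n n' : ℕ) (ε : B) (c : ℕ → B) (j : ℕ) :
    (QQ n n' ε c).coeff j = if j ≤ n + n' then ε ^ (n' - j) * c (n + n' - j) else 0 := by
  simp only [QQ, finsetSum_coeff, coeff_monomial]
  split_ifs with h
  · rw [sum_eq_single (n + n' - j), if_pos (by omega), show n + n' - j - n = n' - j by omega]
    · intro b hb hne
      rw [mem_range] at hb
      exact if_neg (by omega)
    · intro hb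
      exact absurd (mem_range.2 (by omega)) hb
  · exact sum_eq_zero fun b _ => if_neg (by omega)

theorem PP_deg (n n' : ℕ) (ε : B) (c : ℕ → B) : (PP n n' ε c).natDegree ≤ n + n' :=
  natDegree_le_iff_coeff_eq_zero.2 fun j hj => by rw [PP_coeff, if_neg (by omega)]

theorem PP_map {B' : Type} [CommRing B'] (ψ : B →+* B') (n n' : ℕ) (ε : B) (c : ℕ → B) :
    (PP n n' ε c).map ψ = PP n n' (ψ ε) (fun j => ψ (c j)) := by
  ext j
  rw [coeff_map, PP_coeff, PP_coeff]
  split_ifs <;> simp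

theorem QQ_map {B' : Type} [CommRing B'] (ψ : B →+* B') (n n' : ℕ) (ε : B) (c : ℕ → B) :
    (QQ n n' ε c).map ψ = QQ n n' (ψ ε) (fun j => ψ (c j)) := by
  ext j
  rw [coeff_map, QQ_coeff, QQ_coeff]
  split_ifs <;> simp

theorem PP_zero {n n' : ℕ} {c : ℕ → B} {p q : B[X]} (h0 : p.coeff 0 = q.coeff 0)
    (hp : p.natDegree ≤ n') (hc : ∀ j ≤ n + n', c j = sp n p q j) : PP n n' 0 c = X ^ n * p := by
  ext j
  rw [PP_coeff, coeff_X_pow_mul']
  by_cases h1 : j ≤ n + n'
  · rw [if_pos h1, hc j h1, sp]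
    rcases lt_trichotomy j n with h | rfl | h
    · rw [zero_pow (by omega), zero_mul, if_neg (by omega)]
    · simp [h0]
    · rw [if_neg (by omega), if_pos (by omega), show n - j = 0 by omega, pow_zero, one_mul]
  · rw [if_neg h1, if_pos (by omega), coeff_eq_zero_of_natDegree_lt (by omega)]

theorem QQ_zero {n n' : ℕ} {c : ℕ → B} {p q : B[X]}
    (hq : q.natDegree ≤ n) (hc : ∀ j ≤ n + n', c j = sp n p q j) : QQ n n' 0 c = X ^ n' * q := by
  ext j
  rw [QQ_coeff, coeff_X_pow_mul']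
  by_cases h1 : j ≤ n + n'
  · rw [if_pos h1, hc _ (by omega), sp]
    rcases Nat.lt_or_ge j n' with h | h
    · rw [zero_pow (by omega), zero_mul, if_neg (by omega)]
    · rw [if_pos (by omega), if_pos h, show n' - j = 0 by omega, pow_zero, one_mul,
        show n - (n + n' - j) = j - n' by omega]
  · rw [if_neg h1, if_pos (by omega), coeff_eq_zero_of_natDegree_lt (by omega)]

end

section
variable {R : Type} [CommRing R] (B : Type) [CommRing B] [Algebra R B]

theorem famP (ε r1 r2 : R) {n n' m : ℕ} (hm : m + 1 = n + n') (x : Fin m → B) :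
    fam (C (ε ^ n * r1) + monomial (n + n') r2)
      (fun l : Fin m => monomial (l + 1) (ε ^ (n - (l + 1)))) B x
      = PP n n' (algebraMap R B ε) (ext (algebraMap R B r1) (algebraMap R B r2) x) := by
  rw [PP, ← hm, sum_ext _ _ x (fun j c => monomial j (algebraMap R B ε ^ (n - j) * c)), fam,
    show n - (m + 1) = 0 by omega]
  simp only [Polynomial.map_add, map_C, map_monomial, map_mul, map_pow, C_mul_monomial,
    monomial_zero_left, Nat.sub_zero, pow_zero, one_mul, mul_comm (x _), Polynomial.map_mul,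
    Polynomial.map_pow]
  ring

theorem famQ (ε r1 r2 : R) {n n' m : ℕ} (hm : m + 1 = n + n') (x : Fin m → B) :
    fam (C (ε ^ n' * r2) + monomial (n + n') r1)
      (fun l : Fin m => monomial (n + n' - (l + 1)) (ε ^ (l + 1 - n))) B x
      = QQ n n' (algebraMap R B ε) (ext (algebraMap R B r1) (algebraMap R B r2) x) := by
  have e : QQ n n' (algebraMap R B ε) (ext (algebraMap R B r1) (algebraMap R B r2) x)
      = ∑ j ∈ range (m + 1 + 1), monomial (n + n' - j) (algebraMap R B ε ^ (j - n) *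
        ext (algebraMap R B r1) (algebraMap R B r2) x j) := by rw [QQ, hm]
  rw [e, sum_ext _ _ x (fun j c => monomial (n + n' - j) (algebraMap R B ε ^ (j - n) * c)), fam,
    show m + 1 - n = n' by omega, show n + n' - (m + 1) = 0 by omega]
  simp only [Polynomial.map_add, map_C, map_monomial, map_mul, map_pow, C_mul_monomial,
    monomial_zero_left, Nat.sub_zero, Nat.zero_sub, pow_zero, one_mul, mul_comm (x _),
    Polynomial.map_mul, Polynomial.map_pow]
  ring

theorem famP0 (ε : R) {n n' m : ℕ} (hm : m + 1 = n + n') (x : Fin m → B) :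
    fam 0 (fun l : Fin m => monomial (l + 1) (ε ^ (n - (l + 1)))) B x
      = PP n n' (algebraMap R B ε) (ext 0 0 x) := by
  simpa using famP B ε 0 0 hm x

theorem famQ0 (ε : R) {n n' m : ℕ} (hm : m + 1 = n + n') (x : Fin m → B) :
    fam 0 (fun l : Fin m => monomial (n + n' - (l + 1)) (ε ^ (l + 1 - n))) B x
      = QQ n n' (algebraMap R B ε) (ext 0 0 x) := by
  simpa using famQ B ε 0 0 hm x

end

theorem PQ_eval (n n' : ℕ) (ε : ℂ) (c : ℕ → ℂ) {t : ℂ} (ht : t ≠ 0) :
    t ^ (n + n') * (PP n n' ε c).eval (ε / t) = ε ^ n * (QQ n n' ε c).eval t := by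
  simp only [PP, QQ, eval_finsetSum, eval_monomial, mul_sum]
  refine sum_congr rfl fun j hj => ?_
  rw [mem_range] at hj
  have e1 : t ^ (n + n') = t ^ (n + n' - j) * t ^ j := by rw [← pow_add]; congr 1; omega
  have e2 : ε ^ (n - j) * ε ^ j = ε ^ n * ε ^ (j - n) := by
    rw [← pow_add, ← pow_add]; congr 1; omega
  have e3 : t ^ j * (ε / t) ^ j = ε ^ j := by rw [← mul_pow]; congr 1; field_simp
  rw [e1]
  linear_combination (t ^ (n + n' - j) * ε ^ (n - j) * c j) * e3 + (t ^ (n + n' - j) * c j) * e2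

theorem PP_eval_neg (n n' : ℕ) (μ ν : ℂ) (c : ℕ → ℂ) :
    (PP n n' (μ * ν) c).eval (-μ)
      = (-μ) ^ n * ∑ j ∈ range (n + n' + 1), c j * (-μ) ^ (j - n) * (-ν) ^ (n - j) := by
  simp only [PP, eval_finsetSum, eval_monomial, mul_sum]
  refine sum_congr rfl fun j _ => ?_
  have e2 : (-μ) ^ (n - j) * (-μ) ^ j = (-μ) ^ n * (-μ) ^ (j - n) := by
    rw [← pow_add, ← pow_add]; congr 1; omega
  rw [← neg_mul_neg μ ν, mul_pow]
  linear_combination ((-ν) ^ (n - j) * c j) * e2

theorem coeff_flip {F G : ℂ[X]} {T : ℕ} {ε c : ℂ} (hF : F.natDegree ≤ T)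
    (h : ∀ t : ℂ, t ≠ 0 → t ^ T * F.eval (ε / t) = c * G.eval t) {J : ℕ} (hJ : J ≤ T) :
    ε ^ J * F.coeff J = c * G.coeff (T - J) := by
  have key : QQ 0 T ε F.coeff = C c * G := by
    refine eq_of_infinite_eval_eq _ _ ?_
    refine (Set.finite_singleton (0 : ℂ)).infinite_compl.mono fun t ht => ?_
    have ht' : t ≠ 0 := ht
    have h1 := PQ_eval 0 T ε F.coeff ht'
    have h2 : PP 0 T ε F.coeff = F := by
      ext j
      rw [PP_coeff]
      split_ifs with hj
      · simp
      · exact (coeff_eq_zero_of_natDegree_lt (by omega)).symm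
    rw [h2, zero_add, h t ht', pow_zero, one_mul] at h1
    change eval t _ = eval t _
    rw [← h1, eval_mul, eval_C]
  have := congrArg (fun p : ℂ[X] => p.coeff (T - J)) key
  simp only [QQ_coeff, coeff_C_mul] at this
  rw [if_pos (by omega), show T - (T - J) = J by omega, show 0 + T - (T - J) = J by omega] at this
  exact this

theorem tangent {ι : Type} [Fintype ι] {a w : ι → ℕ} {d e : ℕ} (W : Wt a w d) {y : ι → ℂ[X]}
    {v r : ι → ℂ} {ρ : ℂ[X]} (H : Crv a w d e y v r ρ) {h : ι → ℂ}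
    (hh : ∑ i, (a i : ℂ) * v i ^ (a i - 1) * h i = 1) (G : ℂ[X])
    (hG : ∀ j, e * d ≤ j → G.coeff j = 0) :
    ∃ hp : ι → ℂ[X], (∀ i j, e * w i ≤ j → (hp i).coeff j = 0) ∧
      (∀ i, (hp i).coeff 0 = G.coeff 0 * h i) ∧ ∑ i, (a i : ℂ[X]) * y i ^ (a i - 1) * hp i = G := by
  have hw : ∀ i, 0 < e * w i := fun i => by
    refine Nat.mul_pos H.pos (Nat.pos_of_ne_zero fun h0 => ?_)
    have := W.mul i
    rw [h0, mul_zero] at this
    exact absurd W.pos (by omega)
  set F : ℂ[X] := G - ∑ i, (a i : ℂ[X]) * y i ^ (a i - 1) * C (G.coeff 0 * h i) with hF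
  have F0 : F.coeff 0 = 0 := by
    have : ∀ i, ((a i : ℂ[X]) * y i ^ (a i - 1) * C (G.coeff 0 * h i)).coeff 0
        = G.coeff 0 * ((a i : ℂ) * v i ^ (a i - 1) * h i) := fun i => by
      rw [coeff_zero_eq_eval_zero, ← H.start i, coeff_zero_eq_eval_zero (y i)]
      simp only [eval_mul, eval_natCast, eval_pow, eval_C]
      ring
    rw [hF, coeff_sub, finsetSum_coeff]
    simp only [this]
    rw [← mul_sum, hh, mul_one, sub_self]
  have F1 : ∀ j, e * d ≤ j → F.coeff j = 0 := by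
    intro j hj
    rw [hF, coeff_sub, hG j hj, finsetSum_coeff, sum_eq_zero, sub_zero]
    intro i _
    rw [coeff_mul_C, ← C_eq_natCast, coeff_C_mul, coeff_eq_zero_of_natDegree_lt, mul_zero, zero_mul]
    have h1 : (y i ^ (a i - 1)).natDegree ≤ (a i - 1) * (e * w i) :=
      natDegree_pow_le.trans (Nat.mul_le_mul_left _ (H.deg i))
    have h2 : (a i - 1) * (e * w i) + e * w i = e * d := by
      obtain ⟨k, hk⟩ : ∃ k, a i = k + 1 := ⟨a i - 1, by have := W.two i; omega⟩
      rw [← W.mul i, hk, Nat.add_sub_cancel]; ring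
    have := hw i
    omega
  obtain ⟨h', d', e'⟩ := H.vf F.divX (by
    rw [degree_lt_iff_coeff_zero]
    intro j hj
    rw [coeff_divX]
    exact F1 _ (by omega))
  refine ⟨fun i => C (G.coeff 0 * h i) + X * h' i, fun i j hj => ?_, fun i => by simp, ?_⟩
  · have := hw i
    obtain ⟨j, rfl⟩ : ∃ k, j = k + 1 := ⟨j - 1, by omega⟩
    rw [coeff_add, coeff_C_succ, coeff_X_mul, zero_add]
    exact (degree_lt_iff_coeff_zero _ _).1 (d' i) j (by omega)
  · have e2 : X * F.divX = F := by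
      have := X_mul_divX_add F
      rwa [F0, C_0, add_zero] at this
    have e3 : G = F + ∑ i, (a i : ℂ[X]) * y i ^ (a i - 1) * C (G.coeff 0 * h i) := by
      rw [hF]; ring
    refine Eq.trans ?_ e3.symm
    rw [← e2, e', mul_sum, ← sum_add_distrib]
    exact sum_congr rfl fun i _ => by ring

theorem final_eq {ι : Type} [Fintype ι] {a w : ι → ℕ} {d e1 e2 : ℕ} (W : Wt a w d)
    (he : 0 < e2) {c : ι → ℕ → ℂ} {κ l : ℂ} (hκ : κ = 0 ∨ κ = 1) (hl : l ≠ 0)
    (h1 : ∑ i, c i 0 ^ a i = 1) (h2 : ∑ i, c i (e1 * w i + e2 * w i) ^ a i = κ)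
    (hP : ∀ J, e1 * d ≤ J → J < e1 * d + e2 * d →
      (∑ i, PP (e1 * w i) (e2 * w i) (l ^ (e1 + e2)) (c i) ^ a i).coeff J
        = ((C κ * X + C (l ^ e1)) ^ (e1 * d + e2 * d)).coeff J)
    (hQ : ∀ J, 0 < J → J < e1 * d →
      (∑ i, QQ (e1 * w i) (e2 * w i) (l ^ (e1 + e2)) (c i) ^ a i).coeff (e1 * d + e2 * d - J)
        = ((X + C (κ * l ^ e2)) ^ (e1 * d + e2 * d)).coeff (e1 * d + e2 * d - J)) :
    ∑ i, PP (e1 * w i) (e2 * w i) (l ^ (e1 + e2)) (c i) ^ a i
      = (C κ * X + C (l ^ e1)) ^ (e1 * d + e2 * d) := by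
  have hT : 0 < e2 * d := Nat.mul_pos he W.pos
  have aw : ∀ i, a i * (e1 * w i + e2 * w i) = e1 * d + e2 * d := fun i => by
    rw [← W.mul i]; ring
  have aw1 : ∀ i, e1 * w i * a i = e1 * d := fun i => by rw [← W.mul i]; ring
  have d1 : (C κ * X + C (l ^ e1) : ℂ[X]).natDegree ≤ 1 := natDegree_linear_le
  have dρ : ((C κ * X + C (l ^ e1) : ℂ[X]) ^ (e1 * d + e2 * d)).natDegree ≤ e1 * d + e2 * d :=
    natDegree_pow_le.trans (by simpa using Nat.mul_le_mul_left _ d1)
  have dP : (∑ i, PP (e1 * w i) (e2 * w i) (l ^ (e1 + e2)) (c i) ^ a i).natDegree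
      ≤ e1 * d + e2 * d :=
    natDegree_sum_le_of_forall_le _ _ fun i _ =>
      natDegree_pow_le.trans ((Nat.mul_le_mul_left _ (PP_deg _ _ _ _)).trans (aw i).le)
  have flip : ∀ J ≤ e1 * d + e2 * d, (l ^ (e1 + e2)) ^ J *
      (∑ i, PP (e1 * w i) (e2 * w i) (l ^ (e1 + e2)) (c i) ^ a i
        - (C κ * X + C (l ^ e1)) ^ (e1 * d + e2 * d)).coeff J = (l ^ (e1 + e2)) ^ (e1 * d) *
      (∑ i, QQ (e1 * w i) (e2 * w i) (l ^ (e1 + e2)) (c i) ^ a i
        - (X + C (κ * l ^ e2)) ^ (e1 * d + e2 * d)).coeff (e1 * d + e2 * d - J) := by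
    intro J hJ
    refine coeff_flip ((natDegree_sub_le _ _).trans (max_le dP dρ)) (fun t ht => ?_) hJ
    simp only [eval_sub, eval_finsetSum, eval_pow, eval_add, eval_mul, eval_C, eval_X, mul_sub,
      mul_sum]
    congr 1
    · refine sum_congr rfl fun i _ => ?_
      rw [← aw i, ← aw1 i, mul_comm (a i), pow_mul, pow_mul, ← mul_pow, ← mul_pow, PQ_eval _ _ _ _ ht]
    · have e : (l ^ (e1 + e2)) ^ (e1 * d) = (l ^ e1) ^ (e1 * d + e2 * d) := by
        rw [← pow_mul, ← pow_mul]; congr 1; ring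
      rw [e, ← mul_pow, ← mul_pow]
      congr 1
      rw [pow_add]
      field_simp
      ring
  ext J
  rcases Nat.lt_or_ge (e1 * d + e2 * d) J with h | h
  · rw [coeff_eq_zero_of_natDegree_lt (by omega), coeff_eq_zero_of_natDegree_lt (by omega)]
  rcases h.eq_or_lt with rfl | h
  · have e1' := coeff_pow_of_natDegree_le (m := e1 * d + e2 * d) d1
    rw [mul_one] at e1'
    rw [e1', finsetSum_coeff]
    have : ∀ i, (PP (e1 * w i) (e2 * w i) (l ^ (e1 + e2)) (c i) ^ a i).coeff (e1 * d + e2 * d)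
        = c i (e1 * w i + e2 * w i) ^ a i := fun i => by
      rw [← aw i, coeff_pow_of_natDegree_le (PP_deg _ _ _ _), PP_coeff, if_pos le_rfl]
      simp
    simp only [this, h2]
    rw [coeff_add, coeff_C_mul, coeff_X_one, coeff_C_succ, mul_one, add_zero]
    rcases hκ with rfl | rfl
    · simp [hT.ne']
    · simp
  rcases Nat.lt_or_ge J (e1 * d) with h' | h'
  · rcases Nat.eq_zero_or_pos J with rfl | h0
    · rw [finsetSum_coeff]
      have : ∀ i, (PP (e1 * w i) (e2 * w i) (l ^ (e1 + e2)) (c i) ^ a i).coeff 0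
          = (l ^ e1) ^ (e1 * d + e2 * d) * c i 0 ^ a i := fun i => by
        rw [coeff_zero_eq_eval_zero, eval_pow, ← coeff_zero_eq_eval_zero, PP_coeff,
          if_pos (Nat.zero_le _), mul_pow, Nat.sub_zero, ← pow_mul, aw1 i, ← pow_mul, ← pow_mul]
        congr 2; ring
      simp only [this]
      rw [← mul_sum, h1, mul_one, coeff_zero_eq_eval_zero]
      simp
    · have := flip J h.le
      rw [coeff_sub (n := e1 * d + e2 * d - J), hQ J h0 h', sub_self, mul_zero, coeff_sub] at this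
      exact sub_eq_zero.1 ((mul_eq_zero.1 this).resolve_left (pow_ne_zero _ (pow_ne_zero _ hl)))
  · exact hP J h' h

end GlueA

open GlueA in
theorem glue : CrvEnds → SL → PTd → Glue := by
  intro hE hSL hPT ι _ a w d e1 e2 W y1 y2 v r1 r2 κ hκ H1 H2
  obtain ⟨-, E1, h, hh⟩ := hE ℂ ι a w d e1 W y1 v r1 _ H1
  obtain ⟨-, E2, -⟩ := hE ℂ ι a w d e2 W y2 v r2 _ H2
  rw [coeff_X_pow_self] at E1
  rw [coeff_C_mul, coeff_X_pow_self, mul_one] at E2
  have hw : ∀ i, 0 < w i := fun i => Nat.pos_of_ne_zero fun h0 => by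
    have := W.mul i
    rw [h0, mul_zero] at this
    exact absurd W.pos (by omega)
  have hn1 : ∀ i, 0 < e1 * w i := fun i => Nat.mul_pos H1.pos (hw i)
  have hn2 : ∀ i, 0 < e2 * w i := fun i => Nat.mul_pos H2.pos (hw i)
  have hN1 : 0 < e1 * d := Nat.mul_pos H1.pos W.pos
  have hN2 : 0 < e2 * d := Nat.mul_pos H2.pos W.pos
  have aw1 : ∀ i, e1 * w i * a i = e1 * d := fun i => by rw [← W.mul i]; ring
  have aw2 : ∀ i, e2 * w i * a i = e2 * d := fun i => by rw [← W.mul i]; ring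
  have aw1' : ∀ i, e1 * w i * (a i - 1) + e1 * w i = e1 * d := fun i => by
    obtain ⟨k, hk⟩ : ∃ k, a i = k + 1 := ⟨a i - 1, by have := W.two i; omega⟩
    rw [← W.mul i, hk, Nat.add_sub_cancel]; ring
  have aw2' : ∀ i, e2 * w i * (a i - 1) + e2 * w i = e2 * d := fun i => by
    obtain ⟨k, hk⟩ : ∃ k, a i = k + 1 := ⟨a i - 1, by have := W.two i; omega⟩
    rw [← W.mul i, hk, Nat.add_sub_cancel]; ring
  obtain ⟨m, hm⟩ : ∃ m : ι → ℕ, ∀ i, m i + 1 = e1 * w i + e2 * w i :=
    ⟨fun i => e1 * w i + e2 * w i - 1, fun i => by have := hn1 i; dsimp only; omega⟩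
  letI : Algebra ℂ[X] ℂ := (evalRingHom 0).toAlgebra
  have alg0 : algebraMap ℂ[X] ℂ = evalRingHom 0 := rfl
  have algε : algebraMap ℂ[X] ℂ (X ^ (e1 + e2)) = 0 := by
    have := H1.pos
    rw [alg0]; simp; omega
  have algC : ∀ z : ℂ, algebraMap ℂ[X] ℂ (C z) = z := fun z => by rw [alg0]; simp
  have v0 : ∀ i, (y2 i).coeff 0 = (y1 i).coeff 0 := fun i => by rw [H1.start, H2.start]
  have sp0 : ∀ i, sp (e1 * w i) (y2 i) (y1 i) 0 = r1 i := fun i => by simp [sp, H1.stop]
  have sp1 : ∀ i, sp (e1 * w i) (y2 i) (y1 i) (m i + 1) = r2 i := fun i => by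
    have := hn2 i
    rw [sp, hm i, if_neg (by omega), Nat.add_sub_cancel_left, H2.stop]
  have xs : ∀ i, ∀ j ≤ e1 * w i + e2 * w i, ext (r1 i) (r2 i)
      (fun l : Fin (m i) => sp (e1 * w i) (y2 i) (y1 i) (l + 1)) j
        = sp (e1 * w i) (y2 i) (y1 i) j := fun i j hj => by
    rw [← sp0 i, ← sp1 i]; exact ext_eq _ (by rw [hm i]; exact hj)
  have mapP : ∀ l : ℂ, ((C (C κ) * X + C (X ^ e1) : ℂ[X][X]) ^ (e1 * d + e2 * d)).map
      (evalRingHom l) = (C κ * X + C (l ^ e1)) ^ (e1 * d + e2 * d) := fun l => by simp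
  have mapQ : ∀ l : ℂ, ((X + C (C κ * X ^ e2) : ℂ[X][X]) ^ (e1 * d + e2 * d)).map
      (evalRingHom l) = (X + C (κ * l ^ e2)) ^ (e1 * d + e2 * d) := fun l => by simp
  obtain ⟨A, _, _, hfl, hft, x, φ, hφ, hsol, -⟩ := hSL ℂ[X] ι (Fin (e1 * d + e2 * d - 1)) a m
    (fun b i => if e1 * d ≤ b + 1 then
        C ((X ^ (e1 + e2)) ^ (e1 * w i) * C (r1 i)) + monomial (e1 * w i + e2 * w i) (C (r2 i))
      else C ((X ^ (e1 + e2)) ^ (e2 * w i) * C (r2 i)) + monomial (e1 * w i + e2 * w i) (C (r1 i)))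
    (fun b i => if e1 * d ≤ b + 1 then
        fun l : Fin (m i) => monomial (l + 1) ((X ^ (e1 + e2)) ^ (e1 * w i - (l + 1)))
      else fun l : Fin (m i) => monomial (e1 * w i + e2 * w i - (l + 1))
        ((X ^ (e1 + e2)) ^ (l + 1 - e1 * w i)))
    (fun b => if e1 * d ≤ b + 1 then b + 1 else e1 * d + e2 * d - (b + 1))
    (fun b => if e1 * d ≤ b + 1 then
        ((C (C κ) * X + C (X ^ e1) : ℂ[X][X]) ^ (e1 * d + e2 * d)).coeff (b + 1)
      else ((X + C (C κ * X ^ e2) : ℂ[X][X]) ^ (e1 * d + e2 * d)).coeff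
        (e1 * d + e2 * d - (b + 1)))
    ℂ (fun i l => sp (e1 * w i) (y2 i) (y1 i) (l + 1)) (by
      constructor
      · intro b
        by_cases hb : e1 * d ≤ b + 1
        · simp only [if_pos hb, famP ℂ _ _ _ (hm _), algε, algC, PP_zero (v0 _) (H2.deg _) (xs _)]
          simp only [mul_pow, ← pow_mul, aw1]
          rw [← mul_sum, H2.eqn, alg0, ← coeff_map, mapP, zero_pow H1.pos.ne', C_0, add_zero]
          congr 1
          rcases hκ with rfl | rfl
          · simp [hN2.ne']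
          · simp [pow_add]
        · simp only [if_neg hb, famQ ℂ _ _ _ (hm _), algε, algC, QQ_zero (H1.deg _) (xs _)]
          simp only [mul_pow, ← pow_mul, aw2]
          rw [← mul_sum, H1.eqn, alg0, ← coeff_map, mapQ, zero_pow H2.pos.ne', mul_zero, C_0,
            add_zero, ← pow_add, add_comm (e2 * d)]
      · intro u
        let u' : ℕ → ℂ := fun J => if hJ : J - 1 < e1 * d + e2 * d - 1 then u ⟨J - 1, hJ⟩ else 0
        have hu' : ∀ b : Fin (e1 * d + e2 * d - 1), u' (b + 1) = u b := fun b => by simp [u']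
        obtain ⟨hp, dp, cp, ep⟩ := tangent W H2 hh
          (∑ j ∈ range (e2 * d), monomial j (u' (e1 * d + j))) (fun j hj => by
            simp only [finsetSum_coeff, coeff_monomial, sum_ite_eq', mem_range]
            exact if_neg (by omega))
        obtain ⟨hq, dq, cq, eq⟩ := tangent W H1 hh
          (∑ j ∈ range (e1 * d), monomial j (u' (e1 * d - j))) (fun j hj => by
            simp only [finsetSum_coeff, coeff_monomial, sum_ite_eq', mem_range]
            exact if_neg (by omega))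
        have c0 : ∀ i, (hp i).coeff 0 = (hq i).coeff 0 := fun i => by
          rw [cp, cq]
          simp [coeff_monomial, hN1, hN2]
        have hs : ∀ i, ∀ j ≤ e1 * w i + e2 * w i, ext 0 0
            (fun l : Fin (m i) => sp (e1 * w i) (hp i) (hq i) (l + 1)) j
              = sp (e1 * w i) (hp i) (hq i) j := fun i j hj => by
          have s0 : sp (e1 * w i) (hp i) (hq i) 0 = 0 := by simp [sp, dq]
          have s1 : sp (e1 * w i) (hp i) (hq i) (m i + 1) = 0 := by
            have := hn2 i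
            rw [sp, hm i, if_neg (by omega), Nat.add_sub_cancel_left, dp i _ le_rfl]
          have := ext_eq (m := m i) (sp (e1 * w i) (hp i) (hq i)) (j := j) (by rw [hm i]; exact hj)
          rwa [s0, s1] at this
        have dp' : ∀ i, (hp i).natDegree ≤ e2 * w i := fun i =>
          natDegree_le_iff_coeff_eq_zero.2 fun j hj => dp i j hj.le
        have dq' : ∀ i, (hq i).natDegree ≤ e1 * w i := fun i =>
          natDegree_le_iff_coeff_eq_zero.2 fun j hj => dq i j hj.le
        refine ⟨fun i l => sp (e1 * w i) (hp i) (hq i) (l + 1), fun b => ?_⟩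
        have hb2 := b.2
        by_cases hb : e1 * d ≤ b + 1
        · simp only [if_pos hb, famP ℂ _ _ _ (hm _), famP0 ℂ _ (hm _), algε, algC,
            PP_zero (v0 _) (H2.deg _) (xs _), PP_zero (c0 _) (dp' _) (hs _)]
          have : ∀ i, (a i : ℂ[X]) * (X ^ (e1 * w i) * y2 i) ^ (a i - 1) * (X ^ (e1 * w i) * hp i)
              = X ^ (e1 * d) * ((a i : ℂ[X]) * y2 i ^ (a i - 1) * hp i) := fun i => by
            rw [← aw1' i, pow_add, pow_mul, mul_pow]; ring
          simp only [this]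
          rw [← mul_sum, ep, coeff_X_pow_mul', if_pos hb]
          simp only [finsetSum_coeff, coeff_monomial, sum_ite_eq', mem_range]
          rw [if_pos (by omega), ← hu']
          congr 1; omega
        · simp only [if_neg hb, famQ ℂ _ _ _ (hm _), famQ0 ℂ _ (hm _), algε, algC,
            QQ_zero (H1.deg _) (xs _), QQ_zero (dq' _) (hs _)]
          have : ∀ i, (a i : ℂ[X]) * (X ^ (e2 * w i) * y1 i) ^ (a i - 1) * (X ^ (e2 * w i) * hq i)
              = X ^ (e2 * d) * ((a i : ℂ[X]) * y1 i ^ (a i - 1) * hq i) := fun i => by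
            rw [← aw2' i, pow_add, pow_mul, mul_pow]; ring
          simp only [this]
          rw [← mul_sum, eq, coeff_X_pow_mul', if_pos (by omega)]
          simp only [finsetSum_coeff, coeff_monomial, sum_ite_eq', mem_range]
          rw [if_pos (by omega), ← hu']
          congr 1; omega)
  obtain ⟨i1, hi1⟩ : ∃ i, v i ≠ 0 := by
    by_contra hc
    push Not at hc
    rw [sum_eq_zero fun i _ => by
      rw [hc i, zero_pow (by have := W.two i; omega), mul_zero, zero_mul]] at hh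
    exact zero_ne_one hh
  let cA : ι → ℕ → A := fun i =>
    ext (algebraMap ℂ[X] A (C (r1 i))) (algebraMap ℂ[X] A (C (r2 i))) (x i)
  have φc : ∀ j ≤ e1 * w i1 + e2 * w i1, φ (cA i1 j) = sp (e1 * w i1) (y2 i1) (y1 i1) j := by
    intro j hj
    rw [← xs i1 j hj]
    simp only [cA, GlueA.ext]
    split_ifs
    · rw [AlgHom.commutes, algC]
    · exact hφ _ _
    · rw [AlgHom.commutes, algC]
  obtain ⟨l, ψ, hl, hg, hψ⟩ := hPT A hfl hft
    (∑ j ∈ range (e1 * w i1 + e2 * w i1 + 1), cA i1 j *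
      (-algebraMap ℂ[X] A (X ^ e1)) ^ (j - e1 * w i1) *
      (-algebraMap ℂ[X] A (X ^ e2)) ^ (e1 * w i1 - j)) φ (by
      have z1 : algebraMap ℂ[X] ℂ (X ^ e1) = 0 := by rw [alg0]; simp [H1.pos.ne']
      have z2 : algebraMap ℂ[X] ℂ (X ^ e2) = 0 := by rw [alg0]; simp [H2.pos.ne']
      simp only [RingHom.coe_coe, map_sum, map_mul, map_neg, map_pow φ, AlgHom.commutes, z1, z2,
        neg_zero]
      rw [sum_eq_single (e1 * w i1), φc _ (by omega)]
      · simpa [sp, H1.start] using hi1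
      · intro j _ hj
        rcases lt_or_gt_of_ne hj with h1 | h1
        · rw [zero_pow (n := e1 * w i1 - j) (by omega), mul_zero]
        · rw [zero_pow (n := j - e1 * w i1) (by omega), mul_zero, zero_mul]
      · intro hj
        exact absurd (mem_range.2 (by omega)) hj)
  have ψε : ψ (algebraMap ℂ[X] A (X ^ (e1 + e2))) = l ^ (e1 + e2) := by rw [hψ]; simp
  have c0 : ∀ i, ψ (cA i 0) = r1 i := fun i => by simp only [cA]; rw [ext_zero, hψ, eval_C]
  have c1 : ∀ i, ψ (cA i (e1 * w i + e2 * w i)) = r2 i := fun i => by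
    simp only [cA]; rw [← hm i, ext_top, hψ, eval_C]
  refine ⟨l ^ e1, fun i => PP (e1 * w i) (e2 * w i) (l ^ (e1 + e2)) fun j => ψ (cA i j),
    pow_ne_zero _ hl, fun i => by rw [add_mul]; exact PP_deg _ _ _ _, fun i => ?_, fun i => ?_,
    ?_, i1, ?_⟩
  · rw [PP_coeff, if_pos (Nat.zero_le _), c0, Nat.sub_zero, ← pow_mul, ← pow_mul]
    congr 2; ring
  · rw [add_mul, PP_coeff, if_pos le_rfl, c1]
    simp
  · rw [add_mul]
    refine final_eq W H2.pos hκ hl (by simp only [c0, E1]) (by simp only [c1, E2]) ?_ ?_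
    · intro J h1 h2
      obtain ⟨J, rfl⟩ : ∃ k, J = k + 1 := ⟨J - 1, by omega⟩
      have := congrArg ψ (hsol ⟨J, by omega⟩)
      simp only [if_pos h1, famP A _ _ _ (hm _)] at this
      rw [hψ, ← coeff_map, Polynomial.map_sum] at this
      simp only [Polynomial.map_pow, PP_map, ψε] at this
      rw [← mapP, coeff_map]
      exact this
    · intro J h1 h2
      obtain ⟨J, rfl⟩ : ∃ k, J = k + 1 := ⟨J - 1, by omega⟩
      have := congrArg ψ (hsol ⟨J, by omega⟩)
      simp only [if_neg (not_le.2 h2), famQ A _ _ _ (hm _)] at this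
      rw [hψ, ← coeff_map, Polynomial.map_sum] at this
      simp only [Polynomial.map_pow, QQ_map, ψε] at this
      rw [← mapQ, coeff_map]
      exact this
  · rw [pow_add, PP_eval_neg]
    refine mul_ne_zero (pow_ne_zero _ (neg_ne_zero.2 (pow_ne_zero _ hl))) ?_
    simpa only [map_sum, map_mul, map_neg, map_pow ψ, hψ, eval_pow, eval_X] using hg

end Pool.Agent.MP_776d16_ag.H34
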