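import Pool.Agent.MP_776d16_ag.H34.Spec

namespace Pool.Agent.MP_776d16_ag.H34

open Polynomial

namespace MoveA

lemma spread (hSL : SLpoly) {ι : Type} [Fintype ι] {a w : ι → ℕ} {d e : ℕ} (hW : Wt a w d)
    {R : Type} [CommRing R] [Algebra ℂ R] (π : ι → R) (hπ : ∑ i, π i ^ a i = 0)
    (φ : R →ₐ[ℂ] ℂ) {x : ι → ℂ[X]} {r π0 : ι → ℂ} (hφ : ∀ i, φ (π i) = π0 i)
    (hx : Crv a w d e x r π0 (C (∑ i, r i ^ a i))) :
    ∃ (A : Type) (_ : CommRing A) (_ : Algebra R A), Module.Flat R A ∧ Algebra.FiniteType R A ∧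
      Nontrivial A ∧ ∃ y : ι → A[X],
        Crv a w d e y (fun i => algebraMap R A (algebraMap ℂ R (r i)))
          (fun i => algebraMap R A (π i))
          (C (algebraMap R A (∑ i, algebraMap ℂ R (r i) ^ a i))) := by
  let _ : Algebra R ℂ := (φ : R →+* ℂ).toAlgebra
  have halg : ∀ y, algebraMap R ℂ y = φ y := fun y => rfl
  refine hSL R ι a w d e hW (fun i => algebraMap ℂ R (r i)) π hπ ℂ x ?_
  simp only [halg, map_sum, map_pow, AlgHom.commutes, hφ, Algebra.algebraMap_self,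
    RingHom.id_apply]
  simpa only [map_sum, map_pow] using hx

lemma back (hMap : CrvMap) {ι : Type} [Fintype ι] {a w : ι → ℕ} {d e : ℕ}
    {R A : Type} [CommRing R] [Algebra ℂ R] [CommRing A] [Algebra R A] (π : ι → R)
    (χ : R →ₐ[ℂ] ℂ) (ψ : A →+* ℂ) (hψ : ∀ y, ψ (algebraMap R A y) = χ y) {r : ι → ℂ}
    {y : ι → A[X]}
    (hy : Crv a w d e y (fun i => algebraMap R A (algebraMap ℂ R (r i)))
      (fun i => algebraMap R A (π i)) (C (algebraMap R A (∑ i, algebraMap ℂ R (r i) ^ a i)))) :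
    Crv a w d e (fun i => (y i).map ψ) r (fun i => χ (π i)) (C (∑ i, r i ^ a i)) := by
  have h := hMap A ℂ ι a w d e _ _ _ _ ψ hy
  simp only [map_C, hψ, AlgHom.commutes, Algebra.algebraMap_self, RingHom.id_apply] at h
  simpa only [map_sum, map_pow, AlgHom.commutes, Algebra.algebraMap_self, RingHom.id_apply]
    using h

end MoveA

open MoveA in
theorem move : CrvMap → CrvEnds → SLpoly → EndDom → PTc → Move := by
  intro hMap hEnds hSL hEnd hPT ι _ a w d e1 e2 hW x1 x2 r1 r2 π1 π2 h1 h2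
  have hz : ∀ (e : ℕ) (x : ι → ℂ[X]) (r π : ι → ℂ), Crv a w d e x r π (C (∑ i, r i ^ a i)) →
      ∑ i, π i ^ a i = 0 := by
    intro e x r π h
    rw [(hEnds ℂ ι a w d e hW _ _ _ _ h).2.1, coeff_C, if_neg]
    exact (Nat.mul_pos h.pos hW.pos).ne'
  obtain ⟨R, _, _, π, hdom, hft, hπ, huniv⟩ := hEnd ι a w d hW
  obtain ⟨φ1, hφ1⟩ := huniv π1 (hz _ _ _ _ h1)
  obtain ⟨φ2, hφ2⟩ := huniv π2 (hz _ _ _ _ h2)
  obtain ⟨A1, _, _, hf1, ht1, hn1, y1, hy1⟩ := spread hSL hW π hπ φ1 hφ1 h1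
  obtain ⟨A2, _, _, hf2, ht2, hn2, y2, hy2⟩ := spread hSL hW π hπ φ2 hφ2 h2
  obtain ⟨χ, ψ1, ψ2, hψ1, hψ2⟩ := hPT R A1 A2 hft hf1 ht1 hn1 hf2 ht2 hn2
  exact ⟨_, _, _, back hMap π χ ψ1 hψ1 hy1, back hMap π χ ψ2 hψ2 hy2⟩

theorem join : CrvReflect → P2 → Move → Glue → Join := by
  intro hR hP2 hMove hGlue ι _ a w d hW r1 r2 κ hκ h1 h2 hr2
  have hr1 : r1 ≠ 0 := by
    rintro rfl
    rw [Finset.sum_eq_zero fun i _ => by
      rw [Pi.zero_apply, zero_pow (by have := hW.two i; omega)]] at h1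
    exact zero_ne_one h1
  obtain ⟨e1, x1, π1, hx1⟩ := hP2 ι a w d hW r1 hr1
  obtain ⟨e2, x2, π2, hx2⟩ := hP2 ι a w d hW r2 hr2
  obtain ⟨y1, y2, v, hy1, hy2⟩ := hMove ι a w d e1 e2 hW _ _ _ _ _ _ hx1 hx2
  have hz1 := hR ℂ ι a w d e1 hW _ _ _ _ hy1
  have hz2 := hR ℂ ι a w d e2 hW _ _ _ _ hy2
  rw [h1, reflect_C, C_1, one_mul] at hz1
  rw [h2, reflect_C] at hz2
  obtain ⟨μ, P, hμ, hP⟩ := hGlue ι a w d e1 e2 hW _ _ _ _ _ κ hκ hz1 hz2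
  exact ⟨e1 + e2, μ, P, Nat.add_pos_left hx1.pos _, hμ, hP⟩

end Pool.Agent.MP_776d16_ag.H34
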