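import Pool.Agent.MP_776d16_ag.H34.Spec

namespace Pool.Agent.MP_776d16_ag.H34

open Polynomial

namespace P2A

lemma exists_val (p : ℕ) (hp : p.Prime) :
    ∃ O : ValuationSubring ℂ, (p : O) ∈ IsLocalRing.maximalIdeal O := by
  let A : Subring ℂ := (Int.castRingHom ℂ).range
  have hI : Ideal.span {(p : A)} ≠ ⊤ := by
    rw [Ne, Ideal.span_singleton_eq_top, isUnit_iff_exists_inv]
    rintro ⟨⟨_, n, rfl⟩, h⟩
    have h1 : ((p : ℤ) * n : ℤ) = 1 := by
      have h2 := congrArg Subtype.val h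
      have h3 : (((p : ℤ) * n : ℤ) : ℂ) = ((1 : ℤ) : ℂ) := by simpa using h2
      exact_mod_cast h3
    have h4 : (p : ℤ) ∣ 1 := ⟨n, h1.symm⟩
    have h5 : p ∣ 1 := by exact_mod_cast h4
    exact hp.one_lt.ne' (Nat.dvd_one.1 h5)
  obtain ⟨O, -, hO⟩ := Ideal.image_subset_nonunits_valuationSubring _ hI
  refine ⟨O, ?_⟩
  rw [← ValuationSubring.coe_mem_nonunits_iff]
  exact hO ⟨(p : A), Ideal.mem_span_singleton_self _, by simp⟩

lemma rescale {ι : Type} [Fintype ι] (w : ι → ℕ) (hw : ∀ i, 0 < w i) (O : ValuationSubring ℂ)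
    (r : ι → ℂ) (hr : r ≠ 0) :
    ∃ (c : ℂ) (r' : ι → O), c ≠ 0 ∧ (∀ i, (r' i : ℂ) = c ^ w i * r i) ∧ ∃ j, r' j = 1 := by
  classical
  choose c hc using fun i => IsAlgClosed.exists_pow_nat_eq (r i)⁻¹ (hw i)
  have hne : (Finset.univ.filter fun i => r i ≠ 0).Nonempty := by
    obtain ⟨i, hi⟩ := Function.ne_iff.1 hr
    exact ⟨i, by simpa using hi⟩
  obtain ⟨j, hj, hmin⟩ := Finset.exists_min_image _ (fun i => O.valuation (c i)) hne
  have hj0 : r j ≠ 0 := by simpa using hj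
  have hc0 : ∀ i, r i ≠ 0 → c i ≠ 0 := by
    intro i hi h0
    have := hc i
    rw [h0, zero_pow (hw i).ne'] at this
    exact inv_ne_zero hi this.symm
  have hmem : ∀ i, c j ^ w i * r i ∈ O := by
    intro i
    by_cases hi : r i = 0
    · rw [hi, mul_zero]; exact O.zero_mem
    · obtain ⟨u, hu⟩ := (O.valuation_le_iff _ _).1 (hmin i (by simpa using hi))
      have : c j ^ w i * r i = (u : ℂ) ^ w i := by
        rw [← hu, mul_pow, hc i, mul_assoc, inv_mul_cancel₀ hi, mul_one]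
      rw [this]
      exact pow_mem u.2 _
  refine ⟨c j, fun i => ⟨_, hmem i⟩, hc0 j hj0, fun i => rfl, j, Subtype.ext ?_⟩
  change c j ^ w j * r j = 1
  rw [hc j, inv_mul_cancel₀ hj0]

end P2A

open P2A in
theorem p2 : CrvMap → CrvScale → CrvEnds → SLpoly → EndFlat → PTb → P1 → P2 := by
  intro hMap hScale hEnds hSL hEnd hPT hP1 ι _ a w d hW r hr
  have hw : ∀ i, 0 < w i := fun i => Nat.pos_of_mul_pos_left (hW.mul i ▸ hW.pos)
  obtain ⟨p, hp, hk⟩ := hP1 ι a w d hW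
  obtain ⟨O, hO⟩ := exists_val p hp
  obtain ⟨c, r', hc, hr', j, hj⟩ := rescale w hw O r hr
  let k0 := AlgebraicClosure (IsLocalRing.ResidueField O)
  have hchar : CharP k0 p := by
    rw [CharP.charP_iff_prime_eq_zero hp]
    have h1 : (p : IsLocalRing.ResidueField O) = 0 := by
      have := (IsLocalRing.residue_eq_zero_iff (p : O)).2 hO
      simpa using this
    have := congrArg (algebraMap (IsLocalRing.ResidueField O) k0) h1
    simpa using this
  have hr0 : (fun i => algebraMap O k0 (r' i)) ≠ 0 := by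
    intro h
    have := congrFun h j
    simp [hj] at this
  obtain ⟨e, x0, π0, hx0⟩ := hk k0 _ hr0
  have hπ0 : ∑ i, π0 i ^ a i = 0 := by
    rw [(hEnds k0 ι a w d e hW _ _ _ _ hx0).2.1, coeff_C, if_neg]
    exact (Nat.mul_pos hx0.pos hW.pos).ne'
  obtain ⟨R, _, _, π, hflat, hft, hπ, huniv⟩ := hEnd O ι a w d hW
  obtain ⟨φ, hφ⟩ := huniv k0 π0 hπ0
  let : Algebra R k0 := (φ : R →+* k0).toAlgebra
  have halg : ∀ y, algebraMap R k0 y = φ y := fun y => rfl
  obtain ⟨A, _, _, hflatA, hftA, hnt, x, hx⟩ := hSL R ι a w d e hW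
    (fun i => algebraMap O R (r' i)) π hπ k0 x0 (by
      simp only [halg, map_sum, map_pow, AlgHom.commutes, hφ]
      simpa only [map_sum, map_pow] using hx0)
  let : Algebra O A := ((algebraMap R A).comp (algebraMap O R)).toAlgebra
  have : IsScalarTower O R A := IsScalarTower.of_algebraMap_eq fun _ => rfl
  obtain ⟨ψ⟩ := hPT O A (fun u v h => Subtype.ext h) (Module.Flat.trans O R A)
    (Algebra.FiniteType.trans hft hftA) hnt
  have hψ : ∀ y : O, ψ (algebraMap R A (algebraMap O R y)) = (y : ℂ) := fun y => ψ.commutes y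
  have h1 := hMap A ℂ ι a w d e _ _ _ _ (ψ : A →+* ℂ) hx
  have h2 := hScale ℂ ι a w d e hW _ _ _ _ c⁻¹ (inv_ne_zero hc) h1
  have e1 : (fun i => c⁻¹ ^ w i * (ψ : A →+* ℂ) (algebraMap R A (algebraMap O R (r' i)))) = r := by
    funext i
    rw [RingHom.coe_coe, hψ, hr', ← mul_assoc, ← mul_pow, inv_mul_cancel₀ hc, one_pow, one_mul]
  have e2 : C (c⁻¹ ^ d) * map (ψ : A →+* ℂ)
      (C (algebraMap R A (∑ i, algebraMap O R (r' i) ^ a i))) = C (∑ i, r i ^ a i) := by
    rw [map_C, ← C_mul, RingHom.coe_coe]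
    congr 1
    simp only [map_sum, map_pow, hψ, hr', mul_pow, ← pow_mul, Finset.mul_sum]
    refine Finset.sum_congr rfl fun i _ => ?_
    rw [mul_comm (w i), hW.mul, ← mul_assoc, ← mul_pow, inv_mul_cancel₀ hc, one_pow, one_mul]
  rw [e1, e2] at h2
  exact ⟨e, _, _, h2⟩

end Pool.Agent.MP_776d16_ag.H34
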