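import Pool.Agent.MP_776d16_ag.H34.Spec

/-
Row PT: complex points of flat algebras of finite type.
-/

namespace Pool.Agent.MP_776d16_ag.H34

open Polynomial TensorProduct

namespace PTA

theorem core0 (A : Type) [CommRing A] [Algebra ℂ A] [Algebra.FiniteType ℂ A] [Nontrivial A] :
    Nonempty (A →ₐ[ℂ] ℂ) := by
  obtain ⟨m, hm⟩ := Ideal.exists_maximal A
  let := Ideal.Quotient.field m
  have := finite_of_finite_type_of_isJacobsonRing ℂ (A ⧸ m)
  exact ⟨(IsAlgClosed.lift : (A ⧸ m) →ₐ[ℂ] ℂ).comp (Ideal.Quotient.mkₐ ℂ m)⟩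

theorem core1 (A : Type) [CommRing A] [Algebra ℂ A] [Algebra.FiniteType ℂ A] (f : A)
    (hf : ¬ IsNilpotent f) : ∃ ψ : A →ₐ[ℂ] ℂ, ψ f ≠ 0 := by
  have : Nontrivial (Localization.Away f) := by
    rw [← not_subsingleton_iff_nontrivial,
      IsLocalization.subsingleton_iff (M := Submonoid.powers f)]
    exact hf
  obtain ⟨ψ⟩ := core0 (Localization.Away f)
  refine ⟨ψ.comp (IsScalarTower.toAlgHom ℂ A _), ?_⟩
  exact ((IsLocalization.Away.algebraMap_isUnit (S := Localization.Away f) f).map ψ).ne_zero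

theorem core2 (R A : Type) [CommRing R] [CommRing A] [Algebra ℂ R] [Algebra R A]
    (h1 : Algebra.FiniteType ℂ R) (h2 : Algebra.FiniteType R A) (f : A) (hf : ¬ IsNilpotent f) :
    ∃ (χ : R →ₐ[ℂ] ℂ) (ψ : A →+* ℂ), ψ f ≠ 0 ∧ ∀ y, ψ (algebraMap R A y) = χ y := by
  let : Algebra ℂ A := ((algebraMap R A).comp (algebraMap ℂ R)).toAlgebra
  have : IsScalarTower ℂ R A := IsScalarTower.of_algebraMap_eq fun _ => rfl
  have : Algebra.FiniteType ℂ A := h1.trans h2
  obtain ⟨ψ, hψ⟩ := core1 A f hf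
  exact ⟨ψ.comp (IsScalarTower.toAlgHom ℂ R A), ψ, hψ, fun _ => rfl⟩

end PTA

theorem ptB : PTb := by
  intro R A _ _ _ _ hi hf ht hn
  have : Nontrivial (ℂ ⊗[R] A) :=
    (Algebra.TensorProduct.includeRight_injective (B := A) hi).nontrivial
  obtain ⟨ψ⟩ := PTA.core0 (ℂ ⊗[R] A)
  exact ⟨(ψ.restrictScalars R).comp Algebra.TensorProduct.includeRight⟩

theorem ptC : PTc := by
  intro R A1 A2 _ _ _ _ _ _ _ hR f1 t1 n1 f2 t2 n2
  have hi : Function.Injective (algebraMap R A1) := by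
    rw [injective_iff_map_eq_zero]
    intro r hr
    by_contra h0
    have h := Module.Flat.isSMulRegular_of_nonZeroDivisors (M := A1)
      (mem_nonZeroDivisors_of_ne_zero h0)
    have h1 : r • (1 : A1) = r • (0 : A1) := by
      rw [smul_zero, ← Algebra.algebraMap_eq_smul_one, hr]
    exact one_ne_zero (h h1)
  have : Nontrivial (A1 ⊗[R] A2) :=
    (Algebra.TensorProduct.includeRight_injective (B := A2) hi).nontrivial
  have t3 : Algebra.FiniteType R (A1 ⊗[R] A2) := t1.trans inferInstance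
  obtain ⟨χ, ψ, -, h⟩ := PTA.core2 R (A1 ⊗[R] A2) hR t3 1 not_isNilpotent_one
  refine ⟨χ, ψ.comp (Algebra.TensorProduct.includeLeft : A1 →ₐ[R] A1 ⊗[R] A2),
    ψ.comp (Algebra.TensorProduct.includeRight : A2 →ₐ[R] A1 ⊗[R] A2), fun y => ?_, fun y => ?_⟩
  · rw [← h, RingHom.comp_apply, RingHom.coe_coe, AlgHom.commutes]
  · rw [← h, RingHom.comp_apply, RingHom.coe_coe, AlgHom.commutes]

theorem ptD : PTd := by
  intro A _ _ hf ht g φ hg
  have hn : ¬ IsNilpotent (g * algebraMap ℂ[X] A X) := by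
    rintro ⟨n, hn⟩
    have h := Module.Flat.isSMulRegular_of_nonZeroDivisors (M := A)
      (mem_nonZeroDivisors_of_ne_zero (pow_ne_zero n (X_ne_zero (R := ℂ))))
    have h1 : (X ^ n : ℂ[X]) • g ^ n = (X ^ n : ℂ[X]) • (0 : A) := by
      rw [smul_zero, Algebra.smul_def, map_pow, ← mul_pow, mul_comm, hn]
    have h2 : g ^ n = 0 := h h1
    exact pow_ne_zero n hg (by rw [← map_pow, h2, map_zero])
  obtain ⟨χ, ψ, h1, h2⟩ := PTA.core2 ℂ[X] A inferInstance ht _ hn
  rw [map_mul, h2] at h1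
  refine ⟨χ X, ψ, right_ne_zero_of_mul h1, left_ne_zero_of_mul h1, fun y => ?_⟩
  rw [h2, ← coe_aeval_eq_eval, aeval_algHom_apply, aeval_X_left_apply]

end Pool.Agent.MP_776d16_ag.H34
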