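import Pool.Agent.MP_776d16_ag.H34.Spec

/-
Row SLpoly: lifting a very free polynomial curve with fixed ends.
-/

namespace Pool.Agent.MP_776d16_ag.H34

open Polynomial

namespace SLpolyA

variable {B : Type} [CommRing B]

/-- the polynomial with the given coefficients -/
noncomputable def pl {n : ℕ} (h : Fin n → B) : B[X] := ∑ l, C (h l) * X ^ (l : ℕ)

lemma pl_coeff {n : ℕ} (h : Fin n → B) (j : ℕ) :
    (pl h).coeff j = if hj : j < n then h ⟨j, hj⟩ else 0 := by
  simp only [pl, finsetSum_coeff, coeff_C_mul, coeff_X_pow]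
  split_ifs with hj
  · rw [Finset.sum_eq_single ⟨j, hj⟩]
    · simp
    · intro b _ hb
      rw [if_neg, mul_zero]
      intro h'
      exact hb (Fin.ext h'.symm)
    · simp
  · refine Finset.sum_eq_zero fun l _ => ?_
    rw [if_neg, mul_zero]
    rintro rfl
    exact hj l.2

lemma pl_degree {n : ℕ} (h : Fin n → B) : (pl h).degree < (n : WithBot ℕ) := by
  rw [degree_lt_iff_coeff_zero]
  intro j hj
  rw [pl_coeff, dif_neg (by omega)]

lemma pl_eq {n : ℕ} (f : B[X]) (hf : f.degree < (n : WithBot ℕ)) :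
    pl (fun l : Fin n => f.coeff l) = f := by
  ext j
  rw [pl_coeff]
  split_ifs with hj
  · rfl
  · exact ((degree_lt_iff_coeff_zero f n).1 hf j (by omega)).symm

/-- the curve with given ends and given middle coefficients -/
noncomputable def cv (N : ℕ) (r π : B) (x : Fin (N - 1) → B) : B[X] :=
  C r + monomial N π + X * pl x

lemma cv_zero {N : ℕ} (hN : 1 ≤ N) (r π : B) (x : Fin (N - 1) → B) :
    (cv N r π x).coeff 0 = r := by
  simp [cv, coeff_monomial, show N ≠ 0 by omega]

lemma cv_succ {N : ℕ} (r π : B) (x : Fin (N - 1) → B) (j : ℕ) :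
    (cv N r π x).coeff (j + 1) = (if N = j + 1 then π else 0) + (pl x).coeff j := by
  simp [cv, coeff_monomial, coeff_X_mul]

lemma cv_top {N : ℕ} (hN : 1 ≤ N) (r π : B) (x : Fin (N - 1) → B) :
    (cv N r π x).coeff N = π := by
  obtain ⟨j, rfl⟩ : ∃ j, N = j + 1 := ⟨N - 1, by omega⟩
  rw [cv_succ, if_pos rfl, pl_coeff, dif_neg (by omega), add_zero]

lemma cv_natDegree {N : ℕ} (r π : B) (x : Fin (N - 1) → B) : (cv N r π x).natDegree ≤ N := by
  rw [natDegree_le_iff_coeff_eq_zero]
  intro j hj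
  obtain ⟨j, rfl⟩ : ∃ i, j = i + 1 := ⟨j - 1, by omega⟩
  rw [cv_succ, if_neg (by omega), pl_coeff, dif_neg (by omega), add_zero]

lemma cv_eq {N : ℕ} (hN : 1 ≤ N) (f : B[X]) (hf : f.natDegree ≤ N) :
    cv N (f.coeff 0) (f.coeff N) (fun l => f.coeff (l + 1)) = f := by
  ext j
  cases j with
  | zero => exact cv_zero hN _ _ _
  | succ j =>
    rw [cv_succ, pl_coeff]
    by_cases h1 : N = j + 1
    · rw [if_pos h1, dif_neg (by omega), add_zero, h1]
    · rw [if_neg h1, zero_add]
      split_ifs with h2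
      · rfl
      · exact (coeff_eq_zero_of_natDegree_lt (by omega)).symm

variable {R : Type} [CommRing R] [Algebra R B]

lemma fam_zero {n : ℕ} (h : Fin n → B) :
    fam (0 : R[X]) (fun l : Fin n => X ^ ((l : ℕ) + 1)) B h = X * pl h := by
  simp only [fam, Polynomial.map_zero, zero_add, Polynomial.map_pow, map_X, pl, Finset.mul_sum]
  exact Finset.sum_congr rfl fun l _ => by ring

lemma fam_cv (N : ℕ) (r π : R) (x : Fin (N - 1) → B) :
    fam (C r + monomial N π) (fun l : Fin (N - 1) => X ^ ((l : ℕ) + 1)) B x =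
      cv N (algebraMap R B r) (algebraMap R B π) x := by
  have := fam_zero (R := R) x
  simp only [fam, Polynomial.map_zero, zero_add] at this
  simp only [fam, cv, Polynomial.map_add, map_C, map_monomial, this]

lemma tangent_degree {ι : Type} [Fintype ι] {a w : ι → ℕ} {d e : ℕ} (hW : Wt a w d)
    (x h : ι → B[X]) (hx : ∀ i, (x i).natDegree ≤ e * w i)
    (hh : ∀ i, (h i).degree < ((e * w i - 1 : ℕ) : WithBot ℕ)) :
    (∑ i, (a i : B[X]) * x i ^ (a i - 1) * h i).degree < ((e * d - 1 : ℕ) : WithBot ℕ) := by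
  rw [← mem_degreeLT]
  refine Submodule.sum_mem _ fun i _ => ?_
  rw [mem_degreeLT]
  by_cases h0 : h i = 0
  · rw [h0, mul_zero, degree_zero]
    exact WithBot.bot_lt_coe _
  have h1 : (h i).natDegree < e * w i - 1 := (natDegree_lt_iff_degree_lt h0).2 (hh i)
  have h2 : ((a i : B[X]) * x i ^ (a i - 1) * h i).natDegree ≤
      (a i - 1) * (e * w i) + (h i).natDegree := by
    refine natDegree_mul_le.trans (Nat.add_le_add_right ?_ _)
    refine natDegree_mul_le.trans ?_
    rw [natDegree_natCast, zero_add]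
    exact natDegree_pow_le.trans (Nat.mul_le_mul_left _ (hx i))
  have h3 : (a i - 1) * (e * w i) + e * w i = e * d := by
    obtain ⟨c, hc⟩ : ∃ c, a i = c + 1 := ⟨a i - 1, by have := hW.two i; omega⟩
    rw [← hW.mul i, hc, Nat.add_sub_cancel]
    ring
  refine degree_le_natDegree.trans_lt ?_
  exact_mod_cast (by omega : ((a i : B[X]) * x i ^ (a i - 1) * h i).natDegree < e * d - 1)

lemma sum_tangent {ι : Type} [Fintype ι] (a : ι → ℕ) (x h : ι → B[X]) :
    ∑ i, (a i : B[X]) * x i ^ (a i - 1) * (X * h i) =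
      X * ∑ i, (a i : B[X]) * x i ^ (a i - 1) * h i := by
  rw [Finset.mul_sum]
  exact Finset.sum_congr rfl fun i _ => by ring

end SLpolyA

open SLpolyA

theorem slPoly : SL → SLpoly := by
  intro hSL R ι _ _ a w d e hW r π hπ k0 _ _ _ x0 h0
  have hw : ∀ i, 1 ≤ e * w i := fun i => by
    have h1 := hW.mul i
    have h2 := hW.pos
    have h3 : 0 < w i := Nat.pos_of_ne_zero fun h => by rw [h, mul_zero] at h1; omega
    exact Nat.mul_pos h0.pos h3
  have hd : 1 ≤ e * d := Nat.mul_pos h0.pos hW.pos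
  have hx0 : ∀ i, cv (e * w i) (algebraMap R k0 (r i)) (algebraMap R k0 (π i))
      (fun l => (x0 i).coeff (l + 1)) = x0 i := fun i => by
    rw [← h0.start i, ← h0.stop i]
    exact cv_eq (hw i) _ (h0.deg i)
  obtain ⟨A, _, _, hfl, hft, x, φ, -, hs1, hs2⟩ := hSL R ι (Fin (e * d - 1)) a
    (fun i => e * w i - 1) (fun _ i => C (r i) + monomial (e * w i) (π i))
    (fun _ i l => X ^ ((l : ℕ) + 1)) (fun b => (b : ℕ) + 1) (fun _ => 0) k0
    (fun i l => (x0 i).coeff (l + 1)) (by
      constructor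
      · intro b
        simp only [fam_cv, hx0, h0.eqn, coeff_C, map_zero]
        simp
      · intro v
        obtain ⟨h, hh, hv⟩ := h0.vf (pl v) (pl_degree v)
        refine ⟨fun i l => (h i).coeff l, fun b => ?_⟩
        simp only [fam_cv, hx0, fam_zero, fun i => pl_eq (h i) (hh i)]
        rw [sum_tangent, ← hv, coeff_X_mul, pl_coeff, dif_pos b.2])
  simp only [fam_cv, fam_zero, map_zero] at hs1 hs2
  refine ⟨A, inferInstance, inferInstance, hfl, hft, φ.toRingHom.domain_nontrivial,
    fun i => cv (e * w i) (algebraMap R A (r i)) (algebraMap R A (π i)) (x i),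
    h0.pos, fun i => cv_natDegree _ _ _, fun i => cv_zero (hw i) _ _ _,
    fun i => cv_top (hw i) _ _ _, ?_, ?_⟩
  · have hmul : ∀ i, a i * (e * w i) = e * d := fun i => by rw [← hW.mul i]; ring
    ext j
    rcases Nat.eq_zero_or_pos j with rfl | hj
    · simp only [finsetSum_coeff, map_sum, map_pow]
      refine Finset.sum_congr rfl fun i _ => ?_
      rw [← constantCoeff_apply, map_pow, constantCoeff_apply, cv_zero (hw i), ← map_pow,
        ← map_pow, coeff_C_zero, map_pow]
    rw [coeff_C, if_neg (by omega)]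
    rcases lt_trichotomy j (e * d) with hlt | rfl | hgt
    · have := hs1 ⟨j - 1, by omega⟩
      simp only at this
      rwa [Nat.sub_add_cancel hj] at this
    · rw [finsetSum_coeff, ← map_zero (algebraMap R A), ← hπ, map_sum]
      refine Finset.sum_congr rfl fun i _ => ?_
      rw [← hmul i, coeff_pow_of_natDegree_le (cv_natDegree _ _ _), cv_top (hw i), map_pow]
    · rw [finsetSum_coeff]
      refine Finset.sum_eq_zero fun i _ => coeff_eq_zero_of_natDegree_lt ?_
      refine (natDegree_pow_le.trans ?_).trans_lt hgt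
      rw [← hmul i]
      exact Nat.mul_le_mul_left _ (cv_natDegree _ _ _)
  · intro f hf
    obtain ⟨h, hh⟩ := hs2 fun b => f.coeff b
    refine ⟨fun i => pl (h i), fun i => pl_degree _, ?_⟩
    rw [← pl_eq f hf, ← pl_eq _ (tangent_degree hW _ (fun i => pl (h i))
      (fun i => cv_natDegree _ _ _) fun i => pl_degree _)]
    congr 1
    funext b
    rw [← hh b, sum_tangent, coeff_X_mul]

end Pool.Agent.MP_776d16_ag.H34
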