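import Mathlib
import Pool.Agent.MP_776d16_ag.H34.Defs

/-
Row statements for the theorem: Brieskorn-Pham pairs are log rationally connected.
Plan: team store file 776d16_plan.md.
-/

namespace Pool.Agent.MP_776d16_ag.H34

open Polynomial

/-- exponents `a`, weights `w`, degree `d` -/
structure Wt {ι : Type} [Fintype ι] (a w : ι → ℕ) (d : ℕ) : Prop where
  mul : ∀ i, a i * w i = d
  two : ∀ i, 2 ≤ a i
  pos : 0 < d
  card : 4 ≤ Fintype.card ι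
  fano : d < ∑ i, w i

/-- very free with both ends fixed -/
def VF {K ι : Type} [CommRing K] [Fintype ι] (a w : ι → ℕ) (d e : ℕ) (x : ι → K[X]) : Prop :=
  ∀ f : K[X], f.degree < ((e * d - 1 : ℕ) : WithBot ℕ) → ∃ h : ι → K[X],
    (∀ i, (h i).degree < ((e * w i - 1 : ℕ) : WithBot ℕ)) ∧
      f = ∑ i, (a i : K[X]) * x i ^ (a i - 1) * h i

/-- a very free curve of degree `e` with start `r`, end `π` and right hand side `ρ` -/
structure Crv {K ι : Type} [CommRing K] [Fintype ι] (a w : ι → ℕ) (d e : ℕ) (x : ι → K[X])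
    (r π : ι → K) (ρ : K[X]) : Prop where
  pos : 0 < e
  deg : ∀ i, (x i).natDegree ≤ e * w i
  start : ∀ i, (x i).coeff 0 = r i
  stop : ∀ i, (x i).coeff (e * w i) = π i
  eqn : ∑ i, x i ^ a i = ρ
  vf : VF a w d e x

/- Row Basic -/

def CrvMap : Prop :=
  ∀ (K K' ι : Type) [CommRing K] [CommRing K'] [Fintype ι] (a w : ι → ℕ) (d e : ℕ)
    (x : ι → K[X]) (r π : ι → K) (ρ : K[X]) (φ : K →+* K'), Crv a w d e x r π ρ →
    Crv a w d e (fun i => (x i).map φ) (fun i => φ (r i)) (fun i => φ (π i)) (ρ.map φ)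

def CrvScale : Prop :=
  ∀ (K ι : Type) [Field K] [Fintype ι] (a w : ι → ℕ) (d e : ℕ), Wt a w d →
    ∀ (x : ι → K[X]) (r π : ι → K) (ρ : K[X]) (c : K), c ≠ 0 → Crv a w d e x r π ρ →
    Crv a w d e (fun i => C (c ^ w i) * x i) (fun i => c ^ w i * r i) (fun i => c ^ w i * π i)
      (C (c ^ d) * ρ)

def CrvReflect : Prop :=
  ∀ (K ι : Type) [CommRing K] [Fintype ι] (a w : ι → ℕ) (d e : ℕ), Wt a w d →
    ∀ (x : ι → K[X]) (r π : ι → K) (ρ : K[X]), Crv a w d e x r π ρ →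
    Crv a w d e (fun i => reflect (e * w i) (x i)) π r (reflect (e * d) ρ)

def CrvEnds : Prop :=
  ∀ (K ι : Type) [CommRing K] [Fintype ι] (a w : ι → ℕ) (d e : ℕ), Wt a w d →
    ∀ (x : ι → K[X]) (r π : ι → K) (ρ : K[X]), Crv a w d e x r π ρ →
    ∑ i, r i ^ a i = ρ.coeff 0 ∧ ∑ i, π i ^ a i = ρ.coeff (e * d) ∧
      ∃ h : ι → K, ∑ i, (a i : K) * r i ^ (a i - 1) * h i = 1

/- Row SL -/

/-- an affine-linear family of polynomials -/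
noncomputable def fam {R : Type} [CommRing R] {n : ℕ} (P0 : R[X]) (p : Fin n → R[X])
    (B : Type) [CommRing B] [Algebra R B] (x : Fin n → B) : B[X] :=
  P0.map (algebraMap R B) + ∑ l, C (x l) * (p l).map (algebraMap R B)

/-- a solution of a power sum system at which the tangent map is onto -/
def Sol {R ι β : Type} [CommRing R] [Fintype ι] (a k : ι → ℕ) (P0 : β → ι → R[X])
    (p : β → ∀ i, Fin (k i) → R[X]) (pos : β → ℕ) (t : β → R)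
    (B : Type) [CommRing B] [Algebra R B] (x : ∀ i, Fin (k i) → B) : Prop :=
  (∀ b, (∑ i, fam (P0 b i) (p b i) B (x i) ^ a i).coeff (pos b) = algebraMap R B (t b)) ∧
  ∀ v : β → B, ∃ h : ∀ i, Fin (k i) → B, ∀ b,
    (∑ i, (a i : B[X]) * fam (P0 b i) (p b i) B (x i) ^ (a i - 1) *
      fam 0 (p b i) B (h i)).coeff (pos b) = v b

def SL : Prop :=
  ∀ (R ι β : Type) [CommRing R] [Fintype ι] [Fintype β] (a k : ι → ℕ) (P0 : β → ι → R[X])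
    (p : β → ∀ i, Fin (k i) → R[X]) (pos : β → ℕ) (t : β → R)
    (k0 : Type) [CommRing k0] [Algebra R k0] (x0 : ∀ i, Fin (k i) → k0),
    Sol a k P0 p pos t k0 x0 →
    ∃ (A : Type) (_ : CommRing A) (_ : Algebra R A), Module.Flat R A ∧ Algebra.FiniteType R A ∧
      ∃ (x : ∀ i, Fin (k i) → A) (φ : A →ₐ[R] k0), (∀ i l, φ (x i l) = x0 i l) ∧
        Sol a k P0 p pos t A x

/- Row SLpoly -/

def SLpoly : Prop :=
  ∀ (R ι : Type) [CommRing R] [Fintype ι] (a w : ι → ℕ) (d e : ℕ), Wt a w d →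
    ∀ (r π : ι → R), ∑ i, π i ^ a i = 0 →
    ∀ (k0 : Type) [CommRing k0] [Nontrivial k0] [Algebra R k0] (x0 : ι → k0[X]),
    Crv a w d e x0 (fun i => algebraMap R k0 (r i)) (fun i => algebraMap R k0 (π i))
      (C (algebraMap R k0 (∑ i, r i ^ a i))) →
    ∃ (A : Type) (_ : CommRing A) (_ : Algebra R A), Module.Flat R A ∧ Algebra.FiniteType R A ∧
      Nontrivial A ∧ ∃ x : ι → A[X],
        Crv a w d e x (fun i => algebraMap R A (r i)) (fun i => algebraMap R A (π i))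
          (C (algebraMap R A (∑ i, r i ^ a i)))

/- Row EndRing -/

def EndFlat : Prop :=
  ∀ (S ι : Type) [CommRing S] [Fintype ι] (a w : ι → ℕ) (d : ℕ), Wt a w d →
    ∃ (R : Type) (_ : CommRing R) (_ : Algebra S R) (π : ι → R),
      Module.Flat S R ∧ Algebra.FiniteType S R ∧ ∑ i, π i ^ a i = 0 ∧
      ∀ (k0 : Type) [CommRing k0] [Algebra S k0] (π0 : ι → k0), ∑ i, π0 i ^ a i = 0 →
        ∃ φ : R →ₐ[S] k0, ∀ i, φ (π i) = π0 i

def EndDom : Prop :=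
  ∀ (ι : Type) [Fintype ι] (a w : ι → ℕ) (d : ℕ), Wt a w d →
    ∃ (R : Type) (_ : CommRing R) (_ : Algebra ℂ R) (π : ι → R),
      IsDomain R ∧ Algebra.FiniteType ℂ R ∧ ∑ i, π i ^ a i = 0 ∧
      ∀ (π0 : ι → ℂ), ∑ i, π0 i ^ a i = 0 → ∃ φ : R →ₐ[ℂ] ℂ, ∀ i, φ (π i) = π0 i

/- Row PT -/

def PTb : Prop :=
  ∀ (R A : Type) [CommRing R] [CommRing A] [Algebra R A] [Algebra R ℂ],
    Function.Injective (algebraMap R ℂ) → Module.Flat R A → Algebra.FiniteType R A →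
    Nontrivial A → Nonempty (A →ₐ[R] ℂ)

def PTc : Prop :=
  ∀ (R A1 A2 : Type) [CommRing R] [IsDomain R] [Algebra ℂ R] [CommRing A1] [CommRing A2]
    [Algebra R A1] [Algebra R A2], Algebra.FiniteType ℂ R →
    Module.Flat R A1 → Algebra.FiniteType R A1 → Nontrivial A1 →
    Module.Flat R A2 → Algebra.FiniteType R A2 → Nontrivial A2 →
    ∃ (χ : R →ₐ[ℂ] ℂ) (ψ1 : A1 →+* ℂ) (ψ2 : A2 →+* ℂ),
      (∀ y, ψ1 (algebraMap R A1 y) = χ y) ∧ ∀ y, ψ2 (algebraMap R A2 y) = χ y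

def PTd : Prop :=
  ∀ (A : Type) [CommRing A] [Algebra ℂ[X] A], Module.Flat ℂ[X] A → Algebra.FiniteType ℂ[X] A →
    ∀ (g : A) (φ : A →+* ℂ), φ g ≠ 0 →
    ∃ (l : ℂ) (ψ : A →+* ℂ), l ≠ 0 ∧ ψ g ≠ 0 ∧ ∀ y, ψ (algebraMap ℂ[X] A y) = y.eval l

/- Characteristic `p` -/

/-- the form `⟨u, v⟩ = ∑ u i ^ q * v i` -/
def hf {k ι : Type} [CommRing k] [Fintype ι] (q : ℕ) (u v : ι → k) : k := ∑ i, u i ^ q * v i

section
variable {k ι : Type} [Field k] [Fintype ι] (p : ℕ)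

lemma hf_add_right (u v v' : ι → k) : hf p u (v + v') = hf p u v + hf p u v' := by
  simp [hf, mul_add, Finset.sum_add_distrib]

lemma hf_sub_right (u v v' : ι → k) : hf p u (v - v') = hf p u v - hf p u v' := by
  simp [hf, mul_sub, Finset.sum_sub_distrib]

lemma hf_smul_right (u v : ι → k) (c : k) : hf p u (c • v) = c * hf p u v := by
  simp only [hf, Pi.smul_apply, smul_eq_mul, Finset.mul_sum]
  exact Finset.sum_congr rfl fun i _ => by ring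

lemma hf_smul_left (u v : ι → k) (c : k) : hf p (c • u) v = c ^ p * hf p u v := by
  simp only [hf, Pi.smul_apply, smul_eq_mul, Finset.mul_sum, mul_pow]
  exact Finset.sum_congr rfl fun i _ => by ring

lemma hf_single_right [DecidableEq ι] (u : ι → k) (i : ι) (c : k) :
    hf p u (Pi.single i c) = u i ^ p * c := by
  simp only [hf]
  rw [Finset.sum_eq_single i (fun j _ hj => by simp [hj]) (by simp)]
  simp

variable [Fact p.Prime] [CharP k p]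

lemma hf_add_left (u u' v : ι → k) : hf p (u + u') v = hf p u v + hf p u' v := by
  simp [hf, add_pow_char, add_mul, Finset.sum_add_distrib]

lemma hf_sub_left (u u' v : ι → k) : hf p (u - u') v = hf p u v - hf p u' v := by
  simp [hf, sub_pow_char, sub_mul, Finset.sum_sub_distrib]

lemma hf_pow (u v : ι → k) : hf p u v ^ p = hf p v (fun i => (u i ^ p) ^ p) := by
  simp only [hf, sum_pow_char, mul_pow]
  exact Finset.sum_congr rfl fun i _ => by ring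

end

/-- Gram conditions making `z + δ t + β t ^ q + α t ^ (q + 1)` a very free curve -/
structure Frame {k ι : Type} [CommRing k] [Fintype ι] (q : ℕ) (z δ β α : ι → k) : Prop where
  zδ : hf q z δ = 0
  zβ : hf q z β + hf q δ z = 0
  zα : hf q z α + hf q δ δ = 0
  δβ : hf q δ β = 0
  δα : hf q δ α = 0
  βz : hf q β z = 0
  βδ : hf q β δ = 0
  ββ : hf q β β + hf q α z = 0
  βα : hf q β α = 0
  αδ : hf q α δ = 0
  αβ : hf q α β = 0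
  αα : hf q α α = 0
  δδ : hf q δ δ ≠ 0
  top : ∀ i, α i ≠ 0
  pair : ∀ i j, i ≠ j → δ i * α j ≠ δ j * α i

/- Row VFC -/

def VFC : Prop :=
  ∀ (k ι : Type) [Field k] [Fintype ι] (p : ℕ) [Fact p.Prime] [CharP k p] (a w : ι → ℕ)
    (d M : ℕ), Wt a w d → p + 1 = M * d → 8 * Fintype.card ι ^ 4 ≤ M →
    ∀ z δ β α : ι → k, Frame p z δ β α →
    Crv a w d ((p + 1) * M)
      (fun i => (C (z i) + C (δ i) * X + C (β i) * X ^ p + C (α i) * X ^ (p + 1)) ^ (M * w i))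
      (fun i => z i ^ (M * w i)) (fun i => α i ^ (M * w i)) (C (hf p z z))

/- Row Tools -/

/-- avoidance along lines -/
def AV : Prop :=
  ∀ (k V η : Type) [Field k] [AddCommGroup V] [Module k V] [Fintype η] (E : Finset k)
    (L : Set V) (T : η → Set V) (D : η → ℕ), L.Nonempty →
    (∀ v ∈ L, ∀ v' ∈ L, ∀ x ∈ E, v + x • (v' - v) ∈ L) →
    (∀ h, ∃ v ∈ L, v ∉ T h) →
    (∀ h v v', (v ∉ T h ∨ v' ∉ T h) → ∀ s : Finset k,
      (∀ x ∈ s, v + x • (v' - v) ∈ T h) → s.card ≤ D h) →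
    ∑ h, D h < E.card → ∃ v ∈ L, ∀ h, v ∉ T h

def LineSub : Prop :=
  ∀ (k V : Type) [Field k] [AddCommGroup V] [Module k V] (S : Submodule k V) (v v' : V),
    (v ∉ S ∨ v' ∉ S) → ∀ s : Finset k, (∀ x ∈ s, v + x • (v' - v) ∈ S) → s.card ≤ 1

def LineQuad : Prop :=
  ∀ (k : Type) [Field k] (q : ℕ) (c0 c1 c2 c3 : k), 0 < q → (c0 ≠ 0 ∨ c0 + c1 + c2 + c3 ≠ 0) →
    ∀ s : Finset k, (∀ x ∈ s, c0 + x * c1 + x ^ q * c2 + x ^ (q + 1) * c3 = 0) → s.card ≤ q + 1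

def Efin : Prop :=
  ∀ (k : Type) [Field k] [IsAlgClosed k] (p : ℕ) [Fact p.Prime] [CharP k p],
    ∃ E : Finset k, E.card = p ^ 2 ∧ ∀ x, x ∈ E ↔ (x ^ p) ^ p = x

def Dual2 : Prop :=
  ∀ (k ι : Type) [Field k] [IsAlgClosed k] [Fintype ι] (p : ℕ) [Fact p.Prime] [CharP k p]
    (u1 u2 c : ι → k), (∀ v : ι → k, hf p v u1 = 0 → hf p v u2 = 0 → hf p v c = 0) →
    ∃ x y : k, c = x • u1 + y • u2

def Three : Prop :=
  ∀ (k ι : Type) [Field k] [Fintype ι] [DecidableEq ι], 4 ≤ Fintype.card ι →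
    ∀ c1 c2 c3 : ι → k, ∃ i : ι,
      (Pi.single i 1 : ι → k) ∉ Submodule.span k ({c1, c2, c3} : Set (ι → k))

def Ker3 : Prop :=
  ∀ (k ι : Type) [Field k] [IsAlgClosed k] [Fintype ι] (p : ℕ) [Fact p.Prime] [CharP k p],
    4 ≤ Fintype.card ι → ∀ c1 c2 c3 : ι → k,
    ∃ v : ι → k, v ≠ 0 ∧ hf p v c1 = 0 ∧ hf p v c2 = 0 ∧ hf p v c3 = 0

/-- polarization: `E` has more than `p + 1` elements -/
def Polar : Prop :=
  ∀ (k ι : Type) [Field k] [Fintype ι] (p : ℕ) [Fact p.Prime] [CharP k p] (E : Finset k)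
    (u v : ι → k), p + 1 < E.card → (∀ x ∈ E, hf p (u + x • v) (u + x • v) = 0) →
    hf p u v = 0 ∧ hf p v u = 0

def Tools : Prop := AV ∧ LineSub ∧ LineQuad ∧ Efin ∧ Dual2 ∧ Three ∧ Ker3 ∧ Polar

/- Row Iso -/

def Iso : Prop :=
  ∀ (k ι η : Type) [Field k] [IsAlgClosed k] [Fintype ι] [Fintype η] (p : ℕ) [Fact p.Prime]
    [CharP k p], 4 ≤ Fintype.card ι → Fintype.card η ≤ p → ∀ (u1 u2 : ι → k) (c : η → ι → k),
    hf p u1 u1 * hf p u2 u2 ≠ hf p u1 u2 * hf p u2 u1 →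
    (∀ h (x y : k), c h ≠ x • u1 + y • u2) →
    ∃ γ : ι → k, hf p γ u1 = 0 ∧ hf p γ u2 = 0 ∧ hf p γ γ = 0 ∧ ∀ h, hf p γ (c h) ≠ 0

/- Rows FrameNR, FrameR -/

def FrameNR : Prop :=
  ∀ (k ι : Type) [Field k] [IsAlgClosed k] [Fintype ι] (p : ℕ) [Fact p.Prime] [CharP k p],
    4 ≤ Fintype.card ι → 4 * Fintype.card ι ^ 2 ≤ p → ∀ z : ι → k,
    (∀ x : k, (fun i => (z i ^ p) ^ p) ≠ x • z) → ∃ δ β α : ι → k, Frame p z δ β α

def FrameR : Prop :=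
  ∀ (k ι : Type) [Field k] [IsAlgClosed k] [Fintype ι] (p : ℕ) [Fact p.Prime] [CharP k p],
    4 ≤ Fintype.card ι → 4 * Fintype.card ι ^ 2 ≤ p → ∀ z : ι → k, z ≠ 0 →
    (∀ i, (z i ^ p) ^ p = z i) → ∃ δ β α : ι → k, Frame p z δ β α

/- Row P1 -/

def P1 : Prop :=
  ∀ (ι : Type) [Fintype ι] (a w : ι → ℕ) (d : ℕ), Wt a w d → ∃ p : ℕ, p.Prime ∧
    ∀ (k : Type) [Field k] [IsAlgClosed k] [CharP k p] (r : ι → k), r ≠ 0 →
      ∃ (e : ℕ) (x : ι → k[X]) (π : ι → k), Crv a w d e x r π (C (∑ i, r i ^ a i))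

/- Row P2 -/

def P2 : Prop :=
  ∀ (ι : Type) [Fintype ι] (a w : ι → ℕ) (d : ℕ), Wt a w d → ∀ r : ι → ℂ, r ≠ 0 →
    ∃ (e : ℕ) (x : ι → ℂ[X]) (π : ι → ℂ), Crv a w d e x r π (C (∑ i, r i ^ a i))

/- Row Move -/

def Move : Prop :=
  ∀ (ι : Type) [Fintype ι] (a w : ι → ℕ) (d e1 e2 : ℕ), Wt a w d →
    ∀ (x1 x2 : ι → ℂ[X]) (r1 r2 π1 π2 : ι → ℂ),
    Crv a w d e1 x1 r1 π1 (C (∑ i, r1 i ^ a i)) → Crv a w d e2 x2 r2 π2 (C (∑ i, r2 i ^ a i)) →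
    ∃ (y1 y2 : ι → ℂ[X]) (v : ι → ℂ),
      Crv a w d e1 y1 r1 v (C (∑ i, r1 i ^ a i)) ∧ Crv a w d e2 y2 r2 v (C (∑ i, r2 i ^ a i))

/- Row Glue -/

def Glue : Prop :=
  ∀ (ι : Type) [Fintype ι] (a w : ι → ℕ) (d e1 e2 : ℕ), Wt a w d →
    ∀ (y1 y2 : ι → ℂ[X]) (v r1 r2 : ι → ℂ) (κ : ℂ), (κ = 0 ∨ κ = 1) →
    Crv a w d e1 y1 v r1 (X ^ (e1 * d)) → Crv a w d e2 y2 v r2 (C κ * X ^ (e2 * d)) →
    ∃ (μ : ℂ) (P : ι → ℂ[X]), μ ≠ 0 ∧ (∀ i, (P i).natDegree ≤ (e1 + e2) * w i) ∧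
      (∀ i, (P i).coeff 0 = μ ^ ((e1 + e2) * w i) * r1 i) ∧
      (∀ i, (P i).coeff ((e1 + e2) * w i) = r2 i) ∧
      ∑ i, P i ^ a i = (C κ * X + C μ) ^ ((e1 + e2) * d) ∧ ∃ i, (P i).eval (-μ) ≠ 0

/- Row Join: two points are joined -/

def Join : Prop :=
  ∀ (ι : Type) [Fintype ι] (a w : ι → ℕ) (d : ℕ), Wt a w d →
    ∀ (r1 r2 : ι → ℂ) (κ : ℂ), (κ = 0 ∨ κ = 1) → ∑ i, r1 i ^ a i = 1 → ∑ i, r2 i ^ a i = κ →
    r2 ≠ 0 → ∃ (e : ℕ) (μ : ℂ) (P : ι → ℂ[X]), 0 < e ∧ μ ≠ 0 ∧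
      (∀ i, (P i).natDegree ≤ e * w i) ∧ (∀ i, (P i).coeff 0 = μ ^ (e * w i) * r1 i) ∧
      (∀ i, (P i).coeff (e * w i) = r2 i) ∧
      ∑ i, P i ^ a i = (C κ * X + C μ) ^ (e * d) ∧ ∃ i, (P i).eval (-μ) ≠ 0

/- Row Final -/

def Final : Prop :=
  ∀ (m : ℕ) (a w : Fin m → ℕ) (b w0 d : ℕ), Wt a w d → b * w0 = d →
    LogRC (wts w0 w) (hyp (wts w0 w) a b) (bdry (wts w0 w) a)

end Pool.Agent.MP_776d16_ag.H34
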