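import Pool.Agent.MP_776d16_ag.H34.SL
import Pool.Agent.MP_776d16_ag.H34.SLpoly
import Pool.Agent.MP_776d16_ag.H34.Basic
import Pool.Agent.MP_776d16_ag.H34.EndRing
import Pool.Agent.MP_776d16_ag.H34.PT
import Pool.Agent.MP_776d16_ag.H34.P2
import Pool.Agent.MP_776d16_ag.H34.Move
import Pool.Agent.MP_776d16_ag.H34.Glue
import Pool.Agent.MP_776d16_ag.H34.Final
import Pool.Agent.MP_776d16_ag.H36.P1

namespace Pool.Agent.MP_776d16_ag.H34

theorem main : Final :=
  final (join crvReflect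
    (p2 crvMap crvScale crvEnds (slPoly sl) endFlat ptB Pool.Agent.MP_776d16_ag.H36.p1)
    (move crvMap crvEnds (slPoly sl) endDom ptC) (glue crvEnds sl ptD))

end Pool.Agent.MP_776d16_ag.H34
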